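import Pool.Agent.Gen.F5.X123C1Dm1.S000
import Pool.Agent.Gen.F5.X123C1Dm1.S001
import Pool.Agent.Gen.F5.X123C1Dm1.S002

set_option autoImplicit false
set_option maxRecDepth 100000

namespace Pool.Agent.Gen.F5.X123C1Dm1

open Pool.Agent.Helper72.F5

def n0 : Cl (O (nat_lit 1)) (R (nat_lit 135377))
    (p (nat_lit 0x109) (nat_lit 0) (p (nat_lit 0xb0014) (nat_lit 0) (p (nat_lit 0xb000c) (nat_lit 0) (p (nat_lit 0x200004) (nat_lit 1) (p (nat_lit 0x89) (nat_lit 1) (p (nat_lit 0xc1) (nat_lit 1) (p (nat_lit 0x101) (nat_lit 1) (p (nat_lit 0x119) (nat_lit 0) (p (nat_lit 0xd1) (nat_lit 0) (p (nat_lit 0x81) (nat_lit 0) (p (nat_lit 0x41) (nat_lit 1) (p (nat_lit 0x9080787089a) (nat_lit 0) (p (nat_lit 0x8878706861a) (nat_lit 0) (p (nat_lit 0x800080686078a) (nat_lit 0) (p (nat_lit 0x800078605850a) (nat_lit 0) (p (nat_lit 0x605850682) (nat_lit 0) (p (nat_lit 0x585048402) (nat_lit 0) (p (nat_lit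 0x160014) (nat_lit 0) (p (nat_lit 0x16000c) (nat_lit 0) (p (nat_lit 0x60592) (nat_lit 0) (p (nat_lit 0x48512) (nat_lit 0) (p (nat_lit 0x50392) (nat_lit 0) (p (nat_lit 0x38312) (nat_lit 0) (p (nat_lit 0x40212) (nat_lit 0) (p (nat_lit 0x28192) (nat_lit 0) (p (nat_lit 0x30092) (nat_lit 0) (p (nat_lit 0x18012) (nat_lit 0) pn))))))))))))))))))))))))))) :=
  Cl.node (nat_lit 0x101) (nat_lit 2) (by decide +kernel) (ClAll.succ (ClAll.succ ClAll.zero s46) s47)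

def n1 : Cl (O (nat_lit 1)) (R (nat_lit 135377))
    (p (nat_lit 0x109) (nat_lit 1) (p (nat_lit 0xb0014) (nat_lit 0) (p (nat_lit 0xb000c) (nat_lit 0) (p (nat_lit 0x200004) (nat_lit 1) (p (nat_lit 0x89) (nat_lit 1) (p (nat_lit 0xc1) (nat_lit 1) (p (nat_lit 0x101) (nat_lit 1) (p (nat_lit 0x119) (nat_lit 0) (p (nat_lit 0xd1) (nat_lit 0) (p (nat_lit 0x81) (nat_lit 0) (p (nat_lit 0x41) (nat_lit 1) (p (nat_lit 0x9080787089a) (nat_lit 0) (p (nat_lit 0x8878706861a) (nat_lit 0) (p (nat_lit 0x800080686078a) (nat_lit 0) (p (nat_lit 0x800078605850a) (nat_lit 0) (p (nat_lit 0x605850682) (nat_lit 0) (p (nat_lit 0x585048402) (nat_lit 0) (p (nat_lit 0x160014) (nat_lit 0) (p (nat_lit 0x16000c) (nat_lit 0) (p (nat_lit 0x60592) (nat_lit 0) (p (nat_lit 0x48512) (nat_lit 0) (p (nat_lit 0x50392) (nat_lit 0) (p (nat_lit 0x38312) (nat_lit 0) (p (nat_lit 0x40212) (nat_lit 0) (p (nat_lit 0x28192) (nat_lit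 0) (p (nat_lit 0x30092) (nat_lit 0) (p (nat_lit 0x18012) (nat_lit 0) pn))))))))))))))))))))))))))) :=
  Cl.node (nat_lit 0x41) (nat_lit 2) (by decide +kernel) (ClAll.succ (ClAll.succ ClAll.zero s48) s49)

def n2 : Cl (O (nat_lit 1)) (R (nat_lit 135377))
    (p (nat_lit 0xc9) (nat_lit 1) (p (nat_lit 0xb0014) (nat_lit 0) (p (nat_lit 0xb000c) (nat_lit 0) (p (nat_lit 0x200004) (nat_lit 1) (p (nat_lit 0x89) (nat_lit 1) (p (nat_lit 0x101) (nat_lit 1) (p (nat_lit 0xc1) (nat_lit 1) (p (nat_lit 0x119) (nat_lit 1) (p (nat_lit 0xd1) (nat_lit 0) (p (nat_lit 0x81) (nat_lit 0) (p (nat_lit 0x41) (nat_lit 1) (p (nat_lit 0x9080787089a) (nat_lit 0) (p (nat_lit 0x8878706861a) (nat_lit 0) (p (nat_lit 0x800080686078a) (nat_lit 0) (p (nat_lit 0x800078605850a) (nat_lit 0) (p (nat_lit 0x605850682) (nat_lit 0) (p (nat_lit 0x585048402) (nat_lit 0) (p (nat_lit 0x160014) (nat_lit 0) (p (nat_lit 0x16000c)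 (nat_lit 0) (p (nat_lit 0x60592) (nat_lit 0) (p (nat_lit 0x48512) (nat_lit 0) (p (nat_lit 0x50392) (nat_lit 0) (p (nat_lit 0x38312) (nat_lit 0) (p (nat_lit 0x40212) (nat_lit 0) (p (nat_lit 0x28192) (nat_lit 0) (p (nat_lit 0x30092) (nat_lit 0) (p (nat_lit 0x18012) (nat_lit 0) pn))))))))))))))))))))))))))) :=
  Cl.node (nat_lit 0x41) (nat_lit 2) (by decide +kernel) (ClAll.succ (ClAll.succ ClAll.zero s68) s69)

def n3 : Cl (O (nat_lit 1)) (R (nat_lit 135377))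
    (p (nat_lit 0xb0014) (nat_lit 0) (p (nat_lit 0xb000c) (nat_lit 0) (p (nat_lit 0x200004) (nat_lit 1) (p (nat_lit 0x89) (nat_lit 1) (p (nat_lit 0xc1) (nat_lit 1) (p (nat_lit 0x101) (nat_lit 1) (p (nat_lit 0x119) (nat_lit 0) (p (nat_lit 0xd1) (nat_lit 0) (p (nat_lit 0x81) (nat_lit 0) (p (nat_lit 0x41) (nat_lit 1) (p (nat_lit 0x9080787089a) (nat_lit 0) (p (nat_lit 0x8878706861a) (nat_lit 0) (p (nat_lit 0x800080686078a) (nat_lit 0) (p (nat_lit 0x800078605850a) (nat_lit 0) (p (nat_lit 0x605850682) (nat_lit 0) (p (nat_lit 0x585048402) (nat_lit 0) (p (nat_lit 0x160014) (nat_lit 0) (p (nat_lit 0x16000c) (nat_lit 0) (p (nat_lit 0x60592) (nat_lit 0) (p (nat_lit 0x48512) (nat_lit 0) (p (nat_lit 0x50392) (nat_lit 0) (p (nat_lit 0x38312) (nat_lit 0) (p (nat_lit 0x40212) (nat_lit 0) (p (nat_lit 0x28192) (nat_lit 0) (p (nat_lit 0x30092) (nat_lit 0) (p (nat_lit 0x18012) (nat_lit 0) pn))))))))))))))))))))))))))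 :=
  Cl.node (nat_lit 0x109) (nat_lit 2) (by decide +kernel) (ClAll.succ (ClAll.succ ClAll.zero n0) n1)

def n4 : Cl (O (nat_lit 1)) (R (nat_lit 135377))
    (p (nat_lit 0xb0014) (nat_lit 0) (p (nat_lit 0xb000c) (nat_lit 0) (p (nat_lit 0x200004) (nat_lit 1) (p (nat_lit 0x89) (nat_lit 1) (p (nat_lit 0x101) (nat_lit 1) (p (nat_lit 0xc1) (nat_lit 1) (p (nat_lit 0x119) (nat_lit 1) (p (nat_lit 0xd1) (nat_lit 0) (p (nat_lit 0x81) (nat_lit 0) (p (nat_lit 0x41) (nat_lit 1) (p (nat_lit 0x9080787089a) (nat_lit 0) (p (nat_lit 0x8878706861a) (nat_lit 0) (p (nat_lit 0x800080686078a) (nat_lit 0) (p (nat_lit 0x800078605850a) (nat_lit 0) (p (nat_lit 0x605850682) (nat_lit 0) (p (nat_lit 0x585048402) (nat_lit 0) (p (nat_lit 0x160014) (nat_lit 0) (p (nat_lit 0x16000c) (nat_lit 0) (p (nat_lit 0x60592) (nat_lit 0) (p (nat_lit 0x48512) (nat_lit 0) (p (nat_lit 0x50392) (nat_lit 0) (p (nat_lit 0x38312)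 (nat_lit 0) (p (nat_lit 0x40212) (nat_lit 0) (p (nat_lit 0x28192) (nat_lit 0) (p (nat_lit 0x30092) (nat_lit 0) (p (nat_lit 0x18012) (nat_lit 0) pn)))))))))))))))))))))))))) :=
  Cl.node (nat_lit 0xc9) (nat_lit 2) (by decide +kernel) (ClAll.succ (ClAll.succ ClAll.zero s67) n2)

def n5 : Cl (O (nat_lit 1)) (R (nat_lit 135377))
    (p (nat_lit 0xb0014) (nat_lit 0) (p (nat_lit 0xb000c) (nat_lit 0) (p (nat_lit 0x200004) (nat_lit 1) (p (nat_lit 0xc9) (nat_lit 0) (p (nat_lit 0x89) (nat_lit 1) (p (nat_lit 0x101) (nat_lit 1) (p (nat_lit 0x111) (nat_lit 0) (p (nat_lit 0xd1) (nat_lit 1) (p (nat_lit 0x81) (nat_lit 0) (p (nat_lit 0x41) (nat_lit 1) (p (nat_lit 0x9080787089a) (nat_lit 0) (p (nat_lit 0x8878706861a) (nat_lit 0) (p (nat_lit 0x800080686078a) (nat_lit 0) (p (nat_lit 0x800078605850a) (nat_lit 0) (p (nat_lit 0x605850682) (nat_lit 0) (p (nat_lit 0x585048402) (nat_lit 0) (p (nat_lit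 0x160014) (nat_lit 0) (p (nat_lit 0x16000c) (nat_lit 0) (p (nat_lit 0x60592) (nat_lit 0) (p (nat_lit 0x48512) (nat_lit 0) (p (nat_lit 0x50392) (nat_lit 0) (p (nat_lit 0x38312) (nat_lit 0) (p (nat_lit 0x40212) (nat_lit 0) (p (nat_lit 0x28192) (nat_lit 0) (p (nat_lit 0x30092) (nat_lit 0) (p (nat_lit 0x18012) (nat_lit 0) pn)))))))))))))))))))))))))) :=
  Cl.node (nat_lit 0x119) (nat_lit 2) (by decide +kernel) (ClAll.succ (ClAll.succ ClAll.zero s79) s80)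

def n6 : Cl (O (nat_lit 1)) (R (nat_lit 135377))
    (p (nat_lit 0xb000c) (nat_lit 0) (p (nat_lit 0x200004) (nat_lit 1) (p (nat_lit 0x89) (nat_lit 1) (p (nat_lit 0xc1) (nat_lit 1) (p (nat_lit 0x101) (nat_lit 1) (p (nat_lit 0x119) (nat_lit 0) (p (nat_lit 0xd1) (nat_lit 0) (p (nat_lit 0x81) (nat_lit 0) (p (nat_lit 0x41) (nat_lit 1) (p (nat_lit 0x9080787089a) (nat_lit 0) (p (nat_lit 0x8878706861a) (nat_lit 0) (p (nat_lit 0x800080686078a) (nat_lit 0) (p (nat_lit 0x800078605850a) (nat_lit 0) (p (nat_lit 0x605850682) (nat_lit 0) (p (nat_lit 0x585048402) (nat_lit 0) (p (nat_lit 0x160014) (nat_lit 0) (p (nat_lit 0x16000c) (nat_lit 0) (p (nat_lit 0x60592) (nat_lit 0) (p (nat_lit 0x48512) (nat_lit 0) (p (nat_lit 0x50392) (nat_lit 0) (p (nat_lit 0x38312) (nat_lit 0) (p (nat_lit 0x40212) (nat_lit 0) (p (nat_lit 0x28192) (nat_lit 0) (p (nat_lit 0x30092) (nat_lit 0) (p (nat_lit 0x18012) (nat_lit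 0) pn))))))))))))))))))))))))) :=
  Cl.node (nat_lit 0xb0014) (nat_lit 2) (by decide +kernel) (ClAll.succ (ClAll.succ ClAll.zero n3) s50)

def n7 : Cl (O (nat_lit 1)) (R (nat_lit 135377))
    (p (nat_lit 0x200004) (nat_lit 0) (p (nat_lit 0x109) (nat_lit 1) (p (nat_lit 0x89) (nat_lit 1) (p (nat_lit 0xc9) (nat_lit 1) (p (nat_lit 0xc1) (nat_lit 0) (p (nat_lit 0x119) (nat_lit 1) (p (nat_lit 0xd1) (nat_lit 0) (p (nat_lit 0x81) (nat_lit 0) (p (nat_lit 0x41) (nat_lit 1) (p (nat_lit 0x9080787089a) (nat_lit 0) (p (nat_lit 0x8878706861a) (nat_lit 0) (p (nat_lit 0x800080686078a) (nat_lit 0) (p (nat_lit 0x800078605850a) (nat_lit 0) (p (nat_lit 0x605850682) (nat_lit 0) (p (nat_lit 0x585048402) (nat_lit 0) (p (nat_lit 0x160014) (nat_lit 0) (p (nat_lit 0x16000c) (nat_lit 0) (p (nat_lit 0x60592) (nat_lit 0) (p (nat_lit 0x48512) (nat_lit 0) (p (nat_lit 0x50392) (nat_lit 0) (p (nat_lit 0x38312)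 (nat_lit 0) (p (nat_lit 0x40212) (nat_lit 0) (p (nat_lit 0x28192) (nat_lit 0) (p (nat_lit 0x30092) (nat_lit 0) (p (nat_lit 0x18012) (nat_lit 0) pn))))))))))))))))))))))))) :=
  Cl.node (nat_lit 0xb000c) (nat_lit 2) (by decide +kernel) (ClAll.succ (ClAll.succ ClAll.zero s55) s56)

def n8 : Cl (O (nat_lit 1)) (R (nat_lit 135377))
    (p (nat_lit 0xb000c) (nat_lit 0) (p (nat_lit 0x200004) (nat_lit 0) (p (nat_lit 0x89) (nat_lit 1) (p (nat_lit 0x101) (nat_lit 1) (p (nat_lit 0xc1) (nat_lit 1) (p (nat_lit 0x119) (nat_lit 1) (p (nat_lit 0xd1) (nat_lit 0) (p (nat_lit 0x81) (nat_lit 0) (p (nat_lit 0x41) (nat_lit 1) (p (nat_lit 0x9080787089a) (nat_lit 0) (p (nat_lit 0x8878706861a) (nat_lit 0) (p (nat_lit 0x800080686078a) (nat_lit 0) (p (nat_lit 0x800078605850a) (nat_lit 0) (p (nat_lit 0x605850682) (nat_lit 0) (p (nat_lit 0x585048402) (nat_lit 0) (p (nat_lit 0x160014) (nat_lit 0) (p (nat_lit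 0x16000c) (nat_lit 0) (p (nat_lit 0x60592) (nat_lit 0) (p (nat_lit 0x48512) (nat_lit 0) (p (nat_lit 0x50392) (nat_lit 0) (p (nat_lit 0x38312) (nat_lit 0) (p (nat_lit 0x40212) (nat_lit 0) (p (nat_lit 0x28192) (nat_lit 0) (p (nat_lit 0x30092) (nat_lit 0) (p (nat_lit 0x18012) (nat_lit 0) pn))))))))))))))))))))))))) :=
  Cl.node (nat_lit 0xb0014) (nat_lit 2) (by decide +kernel) (ClAll.succ (ClAll.succ ClAll.zero s64) s65)

def n9 : Cl (O (nat_lit 1)) (R (nat_lit 135377))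
    (p (nat_lit 0xb000c) (nat_lit 0) (p (nat_lit 0x200004) (nat_lit 1) (p (nat_lit 0x89) (nat_lit 1) (p (nat_lit 0x101) (nat_lit 1) (p (nat_lit 0xc1) (nat_lit 1) (p (nat_lit 0x119) (nat_lit 1) (p (nat_lit 0xd1) (nat_lit 0) (p (nat_lit 0x81) (nat_lit 0) (p (nat_lit 0x41) (nat_lit 1) (p (nat_lit 0x9080787089a) (nat_lit 0) (p (nat_lit 0x8878706861a) (nat_lit 0) (p (nat_lit 0x800080686078a) (nat_lit 0) (p (nat_lit 0x800078605850a) (nat_lit 0) (p (nat_lit 0x605850682) (nat_lit 0) (p (nat_lit 0x585048402) (nat_lit 0) (p (nat_lit 0x160014) (nat_lit 0) (p (nat_lit 0x16000c) (nat_lit 0) (p (nat_lit 0x60592) (nat_lit 0) (p (nat_lit 0x48512) (nat_lit 0) (p (nat_lit 0x50392) (nat_lit 0) (p (nat_lit 0x38312) (nat_lit 0) (p (nat_lit 0x40212) (nat_lit 0) (p (nat_lit 0x28192) (nat_lit 0) (p (nat_lit 0x30092) (nat_lit 0) (p (nat_lit 0x18012) (nat_lit 0) pn))))))))))))))))))))))))) :=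
  Cl.node (nat_lit 0xb0014) (nat_lit 2) (by decide +kernel) (ClAll.succ (ClAll.succ ClAll.zero n4) s70)

def n10 : Cl (O (nat_lit 1)) (R (nat_lit 135377))
    (p (nat_lit 0xb000c) (nat_lit 0) (p (nat_lit 0x200004) (nat_lit 1) (p (nat_lit 0xc9) (nat_lit 0) (p (nat_lit 0x89) (nat_lit 1) (p (nat_lit 0x101) (nat_lit 1) (p (nat_lit 0x111) (nat_lit 0) (p (nat_lit 0xd1) (nat_lit 1) (p (nat_lit 0x81) (nat_lit 0) (p (nat_lit 0x41) (nat_lit 1) (p (nat_lit 0x9080787089a) (nat_lit 0) (p (nat_lit 0x8878706861a) (nat_lit 0) (p (nat_lit 0x800080686078a) (nat_lit 0) (p (nat_lit 0x800078605850a) (nat_lit 0) (p (nat_lit 0x605850682) (nat_lit 0) (p (nat_lit 0x585048402) (nat_lit 0) (p (nat_lit 0x160014) (nat_lit 0) (p (nat_lit 0x16000c) (nat_lit 0) (p (nat_lit 0x60592) (nat_lit 0) (p (nat_lit 0x48512) (nat_lit 0) (p (nat_lit 0x50392) (nat_lit 0) (p (nat_lit 0x38312) (nat_lit 0) (p (nat_lit 0x40212)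 (nat_lit 0) (p (nat_lit 0x28192) (nat_lit 0) (p (nat_lit 0x30092) (nat_lit 0) (p (nat_lit 0x18012) (nat_lit 0) pn))))))))))))))))))))))))) :=
  Cl.node (nat_lit 0xb0014) (nat_lit 2) (by decide +kernel) (ClAll.succ (ClAll.succ ClAll.zero n5) s81)

def n11 : Cl (O (nat_lit 1)) (R (nat_lit 135377))
    (p (nat_lit 0x200004) (nat_lit 0) (p (nat_lit 0x109) (nat_lit 1) (p (nat_lit 0xc9) (nat_lit 1) (p (nat_lit 0xc1) (nat_lit 0) (p (nat_lit 0x119) (nat_lit 1) (p (nat_lit 0xd1) (nat_lit 0) (p (nat_lit 0x89) (nat_lit 0) (p (nat_lit 0x41) (nat_lit 0) (p (nat_lit 0x9080787089a) (nat_lit 0) (p (nat_lit 0x8878706861a) (nat_lit 0) (p (nat_lit 0x800080686078a) (nat_lit 0) (p (nat_lit 0x800078605850a) (nat_lit 0) (p (nat_lit 0x605850682) (nat_lit 0) (p (nat_lit 0x585048402) (nat_lit 0) (p (nat_lit 0x160014) (nat_lit 0) (p (nat_lit 0x16000c) (nat_lit 0) (p (nat_lit 0x60592) (nat_lit 0) (p (nat_lit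 0x48512) (nat_lit 0) (p (nat_lit 0x50392) (nat_lit 0) (p (nat_lit 0x38312) (nat_lit 0) (p (nat_lit 0x40212) (nat_lit 0) (p (nat_lit 0x28192) (nat_lit 0) (p (nat_lit 0x30092) (nat_lit 0) (p (nat_lit 0x18012) (nat_lit 0) pn)))))))))))))))))))))))) :=
  Cl.node (nat_lit 0xb000c) (nat_lit 2) (by decide +kernel) (ClAll.succ (ClAll.succ ClAll.zero s10) s11)

def n12 : Cl (O (nat_lit 1)) (R (nat_lit 135377))
    (p (nat_lit 0x200004) (nat_lit 1) (p (nat_lit 0x89) (nat_lit 1) (p (nat_lit 0xc1) (nat_lit 1) (p (nat_lit 0x101) (nat_lit 1) (p (nat_lit 0x119) (nat_lit 0) (p (nat_lit 0xd1) (nat_lit 0) (p (nat_lit 0x81) (nat_lit 0) (p (nat_lit 0x41) (nat_lit 1) (p (nat_lit 0x9080787089a) (nat_lit 0) (p (nat_lit 0x8878706861a) (nat_lit 0) (p (nat_lit 0x800080686078a) (nat_lit 0) (p (nat_lit 0x800078605850a) (nat_lit 0) (p (nat_lit 0x605850682) (nat_lit 0) (p (nat_lit 0x585048402) (nat_lit 0)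 (p (nat_lit 0x160014) (nat_lit 0) (p (nat_lit 0x16000c) (nat_lit 0) (p (nat_lit 0x60592) (nat_lit 0) (p (nat_lit 0x48512) (nat_lit 0) (p (nat_lit 0x50392) (nat_lit 0) (p (nat_lit 0x38312) (nat_lit 0) (p (nat_lit 0x40212) (nat_lit 0) (p (nat_lit 0x28192) (nat_lit 0) (p (nat_lit 0x30092) (nat_lit 0) (p (nat_lit 0x18012) (nat_lit 0) pn)))))))))))))))))))))))) :=
  Cl.node (nat_lit 0xb000c) (nat_lit 2) (by decide +kernel) (ClAll.succ (ClAll.succ ClAll.zero n6) s51)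

def n13 : Cl (O (nat_lit 1)) (R (nat_lit 135377))
    (p (nat_lit 0x109) (nat_lit 1) (p (nat_lit 0x89) (nat_lit 1) (p (nat_lit 0xc9) (nat_lit 1) (p (nat_lit 0xc1) (nat_lit 0) (p (nat_lit 0x119) (nat_lit 1) (p (nat_lit 0xd1) (nat_lit 0) (p (nat_lit 0x81) (nat_lit 0) (p (nat_lit 0x41) (nat_lit 1) (p (nat_lit 0x9080787089a) (nat_lit 0) (p (nat_lit 0x8878706861a) (nat_lit 0) (p (nat_lit 0x800080686078a) (nat_lit 0) (p (nat_lit 0x800078605850a) (nat_lit 0) (p (nat_lit 0x605850682) (nat_lit 0) (p (nat_lit 0x585048402) (nat_lit 0) (p (nat_lit 0x160014) (nat_lit 0) (p (nat_lit 0x16000c) (nat_lit 0) (p (nat_lit 0x60592) (nat_lit 0) (p (nat_lit 0x48512) (nat_lit 0) (p (nat_lit 0x50392) (nat_lit 0) (p (nat_lit 0x38312) (nat_lit 0) (p (nat_lit 0x40212) (nat_lit 0) (p (nat_lit 0x28192) (nat_lit 0) (p (nat_lit 0x30092) (nat_lit 0) (p (nat_lit 0x18012) (nat_lit 0) pn))))))))))))))))))))))))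 :=
  Cl.node (nat_lit 0x200004) (nat_lit 2) (by decide +kernel) (ClAll.succ (ClAll.succ ClAll.zero n7) s57)

def n14 : Cl (O (nat_lit 1)) (R (nat_lit 135377))
    (p (nat_lit 0x109) (nat_lit 1) (p (nat_lit 0x89) (nat_lit 1) (p (nat_lit 0x101) (nat_lit 0) (p (nat_lit 0xc1) (nat_lit 1) (p (nat_lit 0x119) (nat_lit 1) (p (nat_lit 0xd1) (nat_lit 0) (p (nat_lit 0x81) (nat_lit 0) (p (nat_lit 0x41) (nat_lit 1) (p (nat_lit 0x9080787089a) (nat_lit 0) (p (nat_lit 0x8878706861a) (nat_lit 0) (p (nat_lit 0x800080686078a) (nat_lit 0) (p (nat_lit 0x800078605850a) (nat_lit 0) (p (nat_lit 0x605850682) (nat_lit 0) (p (nat_lit 0x585048402) (nat_lit 0) (p (nat_lit 0x160014) (nat_lit 0) (p (nat_lit 0x16000c) (nat_lit 0) (p (nat_lit 0x60592) (nat_lit 0) (p (nat_lit 0x48512) (nat_lit 0) (p (nat_lit 0x50392) (nat_lit 0) (p (nat_lit 0x38312) (nat_lit 0) (p (nat_lit 0x40212) (nat_lit 0) (p (nat_lit 0x28192)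 (nat_lit 0) (p (nat_lit 0x30092) (nat_lit 0) (p (nat_lit 0x18012) (nat_lit 0) pn)))))))))))))))))))))))) :=
  Cl.node (nat_lit 0x200004) (nat_lit 2) (by decide +kernel) (ClAll.succ (ClAll.succ ClAll.zero s60) s61)

def n15 : Cl (O (nat_lit 1)) (R (nat_lit 135377))
    (p (nat_lit 0x200004) (nat_lit 0) (p (nat_lit 0x89) (nat_lit 1) (p (nat_lit 0x101) (nat_lit 1) (p (nat_lit 0xc1) (nat_lit 1) (p (nat_lit 0x119) (nat_lit 1) (p (nat_lit 0xd1) (nat_lit 0) (p (nat_lit 0x81) (nat_lit 0) (p (nat_lit 0x41) (nat_lit 1) (p (nat_lit 0x9080787089a) (nat_lit 0) (p (nat_lit 0x8878706861a) (nat_lit 0) (p (nat_lit 0x800080686078a) (nat_lit 0) (p (nat_lit 0x800078605850a) (nat_lit 0) (p (nat_lit 0x605850682) (nat_lit 0) (p (nat_lit 0x585048402) (nat_lit 0) (p (nat_lit 0x160014) (nat_lit 0) (p (nat_lit 0x16000c) (nat_lit 0) (p (nat_lit 0x60592) (nat_lit 0) (p (nat_lit 0x48512) (nat_lit 0) (p (nat_lit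 0x50392) (nat_lit 0) (p (nat_lit 0x38312) (nat_lit 0) (p (nat_lit 0x40212) (nat_lit 0) (p (nat_lit 0x28192) (nat_lit 0) (p (nat_lit 0x30092) (nat_lit 0) (p (nat_lit 0x18012) (nat_lit 0) pn)))))))))))))))))))))))) :=
  Cl.node (nat_lit 0xb000c) (nat_lit 2) (by decide +kernel) (ClAll.succ (ClAll.succ ClAll.zero n8) s66)

def n16 : Cl (O (nat_lit 1)) (R (nat_lit 135377))
    (p (nat_lit 0x200004) (nat_lit 1) (p (nat_lit 0x89) (nat_lit 1) (p (nat_lit 0x101) (nat_lit 1) (p (nat_lit 0xc1) (nat_lit 1) (p (nat_lit 0x119) (nat_lit 1) (p (nat_lit 0xd1) (nat_lit 0) (p (nat_lit 0x81) (nat_lit 0) (p (nat_lit 0x41) (nat_lit 1) (p (nat_lit 0x9080787089a) (nat_lit 0) (p (nat_lit 0x8878706861a) (nat_lit 0) (p (nat_lit 0x800080686078a) (nat_lit 0) (p (nat_lit 0x800078605850a) (nat_lit 0) (p (nat_lit 0x605850682) (nat_lit 0) (p (nat_lit 0x585048402) (nat_lit 0) (p (nat_lit 0x160014) (nat_lit 0)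 (p (nat_lit 0x16000c) (nat_lit 0) (p (nat_lit 0x60592) (nat_lit 0) (p (nat_lit 0x48512) (nat_lit 0) (p (nat_lit 0x50392) (nat_lit 0) (p (nat_lit 0x38312) (nat_lit 0) (p (nat_lit 0x40212) (nat_lit 0) (p (nat_lit 0x28192) (nat_lit 0) (p (nat_lit 0x30092) (nat_lit 0) (p (nat_lit 0x18012) (nat_lit 0) pn)))))))))))))))))))))))) :=
  Cl.node (nat_lit 0xb000c) (nat_lit 2) (by decide +kernel) (ClAll.succ (ClAll.succ ClAll.zero n9) s71)

def n17 : Cl (O (nat_lit 1)) (R (nat_lit 135377))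
    (p (nat_lit 0xc9) (nat_lit 0) (p (nat_lit 0x89) (nat_lit 1) (p (nat_lit 0x109) (nat_lit 1) (p (nat_lit 0x101) (nat_lit 0) (p (nat_lit 0x111) (nat_lit 0) (p (nat_lit 0xd1) (nat_lit 1) (p (nat_lit 0x81) (nat_lit 0) (p (nat_lit 0x41) (nat_lit 1) (p (nat_lit 0x9080787089a) (nat_lit 0) (p (nat_lit 0x8878706861a) (nat_lit 0) (p (nat_lit 0x800080686078a) (nat_lit 0) (p (nat_lit 0x800078605850a) (nat_lit 0) (p (nat_lit 0x605850682) (nat_lit 0) (p (nat_lit 0x585048402) (nat_lit 0) (p (nat_lit 0x160014) (nat_lit 0) (p (nat_lit 0x16000c) (nat_lit 0) (p (nat_lit 0x60592) (nat_lit 0) (p (nat_lit 0x48512) (nat_lit 0) (p (nat_lit 0x50392) (nat_lit 0) (p (nat_lit 0x38312) (nat_lit 0) (p (nat_lit 0x40212) (nat_lit 0) (p (nat_lit 0x28192) (nat_lit 0) (p (nat_lit 0x30092) (nat_lit 0) (p (nat_lit 0x18012) (nat_lit 0) pn)))))))))))))))))))))))) :=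
  Cl.node (nat_lit 0x200004) (nat_lit 2) (by decide +kernel) (ClAll.succ (ClAll.succ ClAll.zero s74) s75)

def n18 : Cl (O (nat_lit 1)) (R (nat_lit 135377))
    (p (nat_lit 0x200004) (nat_lit 1) (p (nat_lit 0xc9) (nat_lit 0) (p (nat_lit 0x89) (nat_lit 1) (p (nat_lit 0x101) (nat_lit 1) (p (nat_lit 0x111) (nat_lit 0) (p (nat_lit 0xd1) (nat_lit 1) (p (nat_lit 0x81) (nat_lit 0) (p (nat_lit 0x41) (nat_lit 1) (p (nat_lit 0x9080787089a) (nat_lit 0) (p (nat_lit 0x8878706861a) (nat_lit 0) (p (nat_lit 0x800080686078a) (nat_lit 0) (p (nat_lit 0x800078605850a) (nat_lit 0) (p (nat_lit 0x605850682) (nat_lit 0) (p (nat_lit 0x585048402) (nat_lit 0) (p (nat_lit 0x160014) (nat_lit 0) (p (nat_lit 0x16000c) (nat_lit 0) (p (nat_lit 0x60592) (nat_lit 0) (p (nat_lit 0x48512) (nat_lit 0) (p (nat_lit 0x50392) (nat_lit 0) (p (nat_lit 0x38312) (nat_lit 0) (p (nat_lit 0x40212) (nat_lit 0) (p (nat_lit 0x28192)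 (nat_lit 0) (p (nat_lit 0x30092) (nat_lit 0) (p (nat_lit 0x18012) (nat_lit 0) pn)))))))))))))))))))))))) :=
  Cl.node (nat_lit 0xb000c) (nat_lit 2) (by decide +kernel) (ClAll.succ (ClAll.succ ClAll.zero n10) s82)

def n19 : Cl (O (nat_lit 1)) (R (nat_lit 135377))
    (p (nat_lit 0xc9) (nat_lit 1) (p (nat_lit 0x81) (nat_lit 0) (p (nat_lit 0x101) (nat_lit 1) (p (nat_lit 0x119) (nat_lit 0) (p (nat_lit 0xd1) (nat_lit 0) (p (nat_lit 0x89) (nat_lit 0) (p (nat_lit 0x41) (nat_lit 0) (p (nat_lit 0x9080787089a) (nat_lit 0) (p (nat_lit 0x8878706861a) (nat_lit 0) (p (nat_lit 0x800080686078a) (nat_lit 0) (p (nat_lit 0x800078605850a) (nat_lit 0) (p (nat_lit 0x605850682) (nat_lit 0) (p (nat_lit 0x585048402) (nat_lit 0) (p (nat_lit 0x160014) (nat_lit 0) (p (nat_lit 0x16000c) (nat_lit 0) (p (nat_lit 0x60592) (nat_lit 0) (p (nat_lit 0x48512) (nat_lit 0) (p (nat_lit 0x50392) (nat_lit 0) (p (nat_lit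 0x38312) (nat_lit 0) (p (nat_lit 0x40212) (nat_lit 0) (p (nat_lit 0x28192) (nat_lit 0) (p (nat_lit 0x30092) (nat_lit 0) (p (nat_lit 0x18012) (nat_lit 0) pn))))))))))))))))))))))) :=
  Cl.node (nat_lit 0x200004) (nat_lit 2) (by decide +kernel) (ClAll.succ (ClAll.succ ClAll.zero s4) s5)

def n20 : Cl (O (nat_lit 1)) (R (nat_lit 135377))
    (p (nat_lit 0x109) (nat_lit 1) (p (nat_lit 0xc9) (nat_lit 1) (p (nat_lit 0xc1) (nat_lit 0) (p (nat_lit 0x119) (nat_lit 1) (p (nat_lit 0xd1) (nat_lit 0) (p (nat_lit 0x89) (nat_lit 0) (p (nat_lit 0x41) (nat_lit 0) (p (nat_lit 0x9080787089a) (nat_lit 0) (p (nat_lit 0x8878706861a) (nat_lit 0) (p (nat_lit 0x800080686078a) (nat_lit 0) (p (nat_lit 0x800078605850a) (nat_lit 0) (p (nat_lit 0x605850682) (nat_lit 0) (p (nat_lit 0x585048402) (nat_lit 0) (p (nat_lit 0x160014) (nat_lit 0) (p (nat_lit 0x16000c) (nat_lit 0) (p (nat_lit 0x60592) (nat_lit 0)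 (p (nat_lit 0x48512) (nat_lit 0) (p (nat_lit 0x50392) (nat_lit 0) (p (nat_lit 0x38312) (nat_lit 0) (p (nat_lit 0x40212) (nat_lit 0) (p (nat_lit 0x28192) (nat_lit 0) (p (nat_lit 0x30092) (nat_lit 0) (p (nat_lit 0x18012) (nat_lit 0) pn))))))))))))))))))))))) :=
  Cl.node (nat_lit 0x200004) (nat_lit 2) (by decide +kernel) (ClAll.succ (ClAll.succ ClAll.zero n11) s12)

def n21 : Cl (O (nat_lit 1)) (R (nat_lit 135377))
    (p (nat_lit 0x109) (nat_lit 1) (p (nat_lit 0x81) (nat_lit 0) (p (nat_lit 0xc1) (nat_lit 1) (p (nat_lit 0x119) (nat_lit 1) (p (nat_lit 0xd1) (nat_lit 0) (p (nat_lit 0x89) (nat_lit 0) (p (nat_lit 0x41) (nat_lit 0) (p (nat_lit 0x9080787089a) (nat_lit 0) (p (nat_lit 0x8878706861a) (nat_lit 0) (p (nat_lit 0x800080686078a) (nat_lit 0) (p (nat_lit 0x800078605850a) (nat_lit 0) (p (nat_lit 0x605850682) (nat_lit 0) (p (nat_lit 0x585048402) (nat_lit 0) (p (nat_lit 0x160014)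 (nat_lit 0) (p (nat_lit 0x16000c) (nat_lit 0) (p (nat_lit 0x60592) (nat_lit 0) (p (nat_lit 0x48512) (nat_lit 0) (p (nat_lit 0x50392) (nat_lit 0) (p (nat_lit 0x38312) (nat_lit 0) (p (nat_lit 0x40212) (nat_lit 0) (p (nat_lit 0x28192) (nat_lit 0) (p (nat_lit 0x30092) (nat_lit 0) (p (nat_lit 0x18012) (nat_lit 0) pn))))))))))))))))))))))) :=
  Cl.node (nat_lit 0x200004) (nat_lit 2) (by decide +kernel) (ClAll.succ (ClAll.succ ClAll.zero s14) s15)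

def n22 : Cl (O (nat_lit 1)) (R (nat_lit 135377))
    (p (nat_lit 0x101) (nat_lit 0) (p (nat_lit 0x81) (nat_lit 1) (p (nat_lit 0xc1) (nat_lit 1) (p (nat_lit 0x119) (nat_lit 1) (p (nat_lit 0xd1) (nat_lit 0) (p (nat_lit 0x89) (nat_lit 0) (p (nat_lit 0x41) (nat_lit 0) (p (nat_lit 0x9080787089a) (nat_lit 0) (p (nat_lit 0x8878706861a) (nat_lit 0) (p (nat_lit 0x800080686078a) (nat_lit 0) (p (nat_lit 0x800078605850a) (nat_lit 0) (p (nat_lit 0x605850682) (nat_lit 0) (p (nat_lit 0x585048402) (nat_lit 0) (p (nat_lit 0x160014) (nat_lit 0) (p (nat_lit 0x16000c) (nat_lit 0) (p (nat_lit 0x60592) (nat_lit 0) (p (nat_lit 0x48512) (nat_lit 0) (p (nat_lit 0x50392) (nat_lit 0) (p (nat_lit 0x38312) (nat_lit 0) (p (nat_lit 0x40212) (nat_lit 0) (p (nat_lit 0x28192) (nat_lit 0) (p (nat_lit 0x30092) (nat_lit 0) (p (nat_lit 0x18012) (nat_lit 0) pn))))))))))))))))))))))) :=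
  Cl.node (nat_lit 0x109) (nat_lit 2) (by decide +kernel) (ClAll.succ (ClAll.succ ClAll.zero s16) s17)

def n23 : Cl (O (nat_lit 1)) (R (nat_lit 135377))
    (p (nat_lit 0xc1) (nat_lit 0) (p (nat_lit 0x81) (nat_lit 1) (p (nat_lit 0x101) (nat_lit 1) (p (nat_lit 0x111) (nat_lit 0) (p (nat_lit 0xd1) (nat_lit 1) (p (nat_lit 0x89) (nat_lit 0) (p (nat_lit 0x41) (nat_lit 0) (p (nat_lit 0x9080787089a) (nat_lit 0) (p (nat_lit 0x8878706861a) (nat_lit 0) (p (nat_lit 0x800080686078a) (nat_lit 0) (p (nat_lit 0x800078605850a) (nat_lit 0) (p (nat_lit 0x605850682) (nat_lit 0) (p (nat_lit 0x585048402) (nat_lit 0) (p (nat_lit 0x160014) (nat_lit 0) (p (nat_lit 0x16000c) (nat_lit 0) (p (nat_lit 0x60592) (nat_lit 0) (p (nat_lit 0x48512) (nat_lit 0) (p (nat_lit 0x50392) (nat_lit 0) (p (nat_lit 0x38312) (nat_lit 0) (p (nat_lit 0x40212) (nat_lit 0) (p (nat_lit 0x28192) (nat_lit 0) (p (nat_lit 0x30092)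 (nat_lit 0) (p (nat_lit 0x18012) (nat_lit 0) pn))))))))))))))))))))))) :=
  Cl.node (nat_lit 0x200004) (nat_lit 2) (by decide +kernel) (ClAll.succ (ClAll.succ ClAll.zero s22) s23)

def n24 : Cl (O (nat_lit 1)) (R (nat_lit 135377))
    (p (nat_lit 0x89) (nat_lit 0) (p (nat_lit 0x109) (nat_lit 1) (p (nat_lit 0x101) (nat_lit 0) (p (nat_lit 0x119) (nat_lit 0) (p (nat_lit 0xd1) (nat_lit 0) (p (nat_lit 0x81) (nat_lit 0) (p (nat_lit 0x41) (nat_lit 1) (p (nat_lit 0x9080787089a) (nat_lit 0) (p (nat_lit 0x8878706861a) (nat_lit 0) (p (nat_lit 0x800080686078a) (nat_lit 0) (p (nat_lit 0x800078605850a) (nat_lit 0) (p (nat_lit 0x605850682) (nat_lit 0) (p (nat_lit 0x585048402) (nat_lit 0) (p (nat_lit 0x160014) (nat_lit 0) (p (nat_lit 0x16000c) (nat_lit 0) (p (nat_lit 0x60592) (nat_lit 0) (p (nat_lit 0x48512) (nat_lit 0) (p (nat_lit 0x50392) (nat_lit 0) (p (nat_lit 0x38312) (nat_lit 0) (p (nat_lit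 0x40212) (nat_lit 0) (p (nat_lit 0x28192) (nat_lit 0) (p (nat_lit 0x30092) (nat_lit 0) (p (nat_lit 0x18012) (nat_lit 0) pn))))))))))))))))))))))) :=
  Cl.node (nat_lit 0x200004) (nat_lit 2) (by decide +kernel) (ClAll.succ (ClAll.succ ClAll.zero s36) s37)

def n25 : Cl (O (nat_lit 1)) (R (nat_lit 135377))
    (p (nat_lit 0x89) (nat_lit 1) (p (nat_lit 0x109) (nat_lit 1) (p (nat_lit 0x101) (nat_lit 0) (p (nat_lit 0x119) (nat_lit 0) (p (nat_lit 0xd1) (nat_lit 0) (p (nat_lit 0x81) (nat_lit 0) (p (nat_lit 0x41) (nat_lit 1) (p (nat_lit 0x9080787089a) (nat_lit 0) (p (nat_lit 0x8878706861a) (nat_lit 0) (p (nat_lit 0x800080686078a) (nat_lit 0) (p (nat_lit 0x800078605850a) (nat_lit 0) (p (nat_lit 0x605850682) (nat_lit 0) (p (nat_lit 0x585048402) (nat_lit 0) (p (nat_lit 0x160014) (nat_lit 0) (p (nat_lit 0x16000c) (nat_lit 0) (p (nat_lit 0x60592) (nat_lit 0) (p (nat_lit 0x48512) (nat_lit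 0) (p (nat_lit 0x50392) (nat_lit 0) (p (nat_lit 0x38312) (nat_lit 0) (p (nat_lit 0x40212) (nat_lit 0) (p (nat_lit 0x28192) (nat_lit 0) (p (nat_lit 0x30092) (nat_lit 0) (p (nat_lit 0x18012) (nat_lit 0) pn))))))))))))))))))))))) :=
  Cl.node (nat_lit 0xc9) (nat_lit 2) (by decide +kernel) (ClAll.succ (ClAll.succ ClAll.zero s38) s39)

def n26 : Cl (O (nat_lit 1)) (R (nat_lit 135377))
    (p (nat_lit 0x89) (nat_lit 1) (p (nat_lit 0xc1) (nat_lit 0) (p (nat_lit 0x101) (nat_lit 1) (p (nat_lit 0x119) (nat_lit 0) (p (nat_lit 0xd1) (nat_lit 0) (p (nat_lit 0x81) (nat_lit 0) (p (nat_lit 0x41) (nat_lit 1) (p (nat_lit 0x9080787089a) (nat_lit 0) (p (nat_lit 0x8878706861a) (nat_lit 0) (p (nat_lit 0x800080686078a) (nat_lit 0) (p (nat_lit 0x800078605850a) (nat_lit 0) (p (nat_lit 0x605850682) (nat_lit 0) (p (nat_lit 0x585048402) (nat_lit 0) (p (nat_lit 0x160014) (nat_lit 0) (p (nat_lit 0x16000c)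 (nat_lit 0) (p (nat_lit 0x60592) (nat_lit 0) (p (nat_lit 0x48512) (nat_lit 0) (p (nat_lit 0x50392) (nat_lit 0) (p (nat_lit 0x38312) (nat_lit 0) (p (nat_lit 0x40212) (nat_lit 0) (p (nat_lit 0x28192) (nat_lit 0) (p (nat_lit 0x30092) (nat_lit 0) (p (nat_lit 0x18012) (nat_lit 0) pn))))))))))))))))))))))) :=
  Cl.node (nat_lit 0xc9) (nat_lit 2) (by decide +kernel) (ClAll.succ (ClAll.succ ClAll.zero s41) s42)

def n27 : Cl (O (nat_lit 1)) (R (nat_lit 135377))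
    (p (nat_lit 0x89) (nat_lit 0) (p (nat_lit 0xc1) (nat_lit 1) (p (nat_lit 0x101) (nat_lit 1) (p (nat_lit 0x119) (nat_lit 0) (p (nat_lit 0xd1) (nat_lit 0) (p (nat_lit 0x81) (nat_lit 0) (p (nat_lit 0x41) (nat_lit 1) (p (nat_lit 0x9080787089a) (nat_lit 0) (p (nat_lit 0x8878706861a) (nat_lit 0) (p (nat_lit 0x800080686078a) (nat_lit 0) (p (nat_lit 0x800078605850a) (nat_lit 0) (p (nat_lit 0x605850682) (nat_lit 0) (p (nat_lit 0x585048402) (nat_lit 0) (p (nat_lit 0x160014) (nat_lit 0) (p (nat_lit 0x16000c) (nat_lit 0) (p (nat_lit 0x60592) (nat_lit 0) (p (nat_lit 0x48512) (nat_lit 0) (p (nat_lit 0x50392) (nat_lit 0) (p (nat_lit 0x38312) (nat_lit 0) (p (nat_lit 0x40212) (nat_lit 0) (p (nat_lit 0x28192) (nat_lit 0) (p (nat_lit 0x30092) (nat_lit 0) (p (nat_lit 0x18012) (nat_lit 0) pn))))))))))))))))))))))) :=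
  Cl.node (nat_lit 0x200004) (nat_lit 2) (by decide +kernel) (ClAll.succ (ClAll.succ ClAll.zero s43) s44)

def n28 : Cl (O (nat_lit 1)) (R (nat_lit 135377))
    (p (nat_lit 0x89) (nat_lit 1) (p (nat_lit 0xc1) (nat_lit 1) (p (nat_lit 0x101) (nat_lit 1) (p (nat_lit 0x119) (nat_lit 0) (p (nat_lit 0xd1) (nat_lit 0) (p (nat_lit 0x81) (nat_lit 0) (p (nat_lit 0x41) (nat_lit 1) (p (nat_lit 0x9080787089a) (nat_lit 0) (p (nat_lit 0x8878706861a) (nat_lit 0) (p (nat_lit 0x800080686078a) (nat_lit 0) (p (nat_lit 0x800078605850a) (nat_lit 0) (p (nat_lit 0x605850682) (nat_lit 0) (p (nat_lit 0x585048402) (nat_lit 0) (p (nat_lit 0x160014) (nat_lit 0) (p (nat_lit 0x16000c) (nat_lit 0) (p (nat_lit 0x60592) (nat_lit 0) (p (nat_lit 0x48512) (nat_lit 0) (p (nat_lit 0x50392) (nat_lit 0) (p (nat_lit 0x38312) (nat_lit 0) (p (nat_lit 0x40212) (nat_lit 0) (p (nat_lit 0x28192) (nat_lit 0) (p (nat_lit 0x30092)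 (nat_lit 0) (p (nat_lit 0x18012) (nat_lit 0) pn))))))))))))))))))))))) :=
  Cl.node (nat_lit 0x200004) (nat_lit 2) (by decide +kernel) (ClAll.succ (ClAll.succ ClAll.zero s45) n12)

def n29 : Cl (O (nat_lit 1)) (R (nat_lit 135377))
    (p (nat_lit 0x89) (nat_lit 1) (p (nat_lit 0xc9) (nat_lit 1) (p (nat_lit 0xc1) (nat_lit 0) (p (nat_lit 0x119) (nat_lit 1) (p (nat_lit 0xd1) (nat_lit 0) (p (nat_lit 0x81) (nat_lit 0) (p (nat_lit 0x41) (nat_lit 1) (p (nat_lit 0x9080787089a) (nat_lit 0) (p (nat_lit 0x8878706861a) (nat_lit 0) (p (nat_lit 0x800080686078a) (nat_lit 0) (p (nat_lit 0x800078605850a) (nat_lit 0) (p (nat_lit 0x605850682) (nat_lit 0) (p (nat_lit 0x585048402) (nat_lit 0) (p (nat_lit 0x160014) (nat_lit 0) (p (nat_lit 0x16000c) (nat_lit 0) (p (nat_lit 0x60592) (nat_lit 0) (p (nat_lit 0x48512) (nat_lit 0) (p (nat_lit 0x50392) (nat_lit 0) (p (nat_lit 0x38312) (nat_lit 0) (p (nat_lit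 0x40212) (nat_lit 0) (p (nat_lit 0x28192) (nat_lit 0) (p (nat_lit 0x30092) (nat_lit 0) (p (nat_lit 0x18012) (nat_lit 0) pn))))))))))))))))))))))) :=
  Cl.node (nat_lit 0x109) (nat_lit 2) (by decide +kernel) (ClAll.succ (ClAll.succ ClAll.zero s54) n13)

def n30 : Cl (O (nat_lit 1)) (R (nat_lit 135377))
    (p (nat_lit 0x89) (nat_lit 1) (p (nat_lit 0x101) (nat_lit 0) (p (nat_lit 0xc1) (nat_lit 1) (p (nat_lit 0x119) (nat_lit 1) (p (nat_lit 0xd1) (nat_lit 0) (p (nat_lit 0x81) (nat_lit 0) (p (nat_lit 0x41) (nat_lit 1) (p (nat_lit 0x9080787089a) (nat_lit 0) (p (nat_lit 0x8878706861a) (nat_lit 0) (p (nat_lit 0x800080686078a) (nat_lit 0) (p (nat_lit 0x800078605850a) (nat_lit 0) (p (nat_lit 0x605850682) (nat_lit 0) (p (nat_lit 0x585048402) (nat_lit 0) (p (nat_lit 0x160014) (nat_lit 0) (p (nat_lit 0x16000c) (nat_lit 0) (p (nat_lit 0x60592) (nat_lit 0) (p (nat_lit 0x48512) (nat_lit 0) (p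 (nat_lit 0x50392) (nat_lit 0) (p (nat_lit 0x38312) (nat_lit 0) (p (nat_lit 0x40212) (nat_lit 0) (p (nat_lit 0x28192) (nat_lit 0) (p (nat_lit 0x30092) (nat_lit 0) (p (nat_lit 0x18012) (nat_lit 0) pn))))))))))))))))))))))) :=
  Cl.node (nat_lit 0x109) (nat_lit 2) (by decide +kernel) (ClAll.succ (ClAll.succ ClAll.zero s59) n14)

def n31 : Cl (O (nat_lit 1)) (R (nat_lit 135377))
    (p (nat_lit 0x89) (nat_lit 0) (p (nat_lit 0x101) (nat_lit 1) (p (nat_lit 0xc1) (nat_lit 1) (p (nat_lit 0x119) (nat_lit 1) (p (nat_lit 0xd1) (nat_lit 0) (p (nat_lit 0x81) (nat_lit 0) (p (nat_lit 0x41) (nat_lit 1) (p (nat_lit 0x9080787089a) (nat_lit 0) (p (nat_lit 0x8878706861a) (nat_lit 0) (p (nat_lit 0x800080686078a) (nat_lit 0) (p (nat_lit 0x800078605850a) (nat_lit 0) (p (nat_lit 0x605850682) (nat_lit 0) (p (nat_lit 0x585048402) (nat_lit 0) (p (nat_lit 0x160014) (nat_lit 0) (p (nat_lit 0x16000c) (nat_lit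 0) (p (nat_lit 0x60592) (nat_lit 0) (p (nat_lit 0x48512) (nat_lit 0) (p (nat_lit 0x50392) (nat_lit 0) (p (nat_lit 0x38312) (nat_lit 0) (p (nat_lit 0x40212) (nat_lit 0) (p (nat_lit 0x28192) (nat_lit 0) (p (nat_lit 0x30092) (nat_lit 0) (p (nat_lit 0x18012) (nat_lit 0) pn))))))))))))))))))))))) :=
  Cl.node (nat_lit 0x200004) (nat_lit 2) (by decide +kernel) (ClAll.succ (ClAll.succ ClAll.zero s62) s63)

def n32 : Cl (O (nat_lit 1)) (R (nat_lit 135377))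
    (p (nat_lit 0x89) (nat_lit 1) (p (nat_lit 0x101) (nat_lit 1) (p (nat_lit 0xc1) (nat_lit 1) (p (nat_lit 0x119) (nat_lit 1) (p (nat_lit 0xd1) (nat_lit 0) (p (nat_lit 0x81) (nat_lit 0) (p (nat_lit 0x41) (nat_lit 1) (p (nat_lit 0x9080787089a) (nat_lit 0) (p (nat_lit 0x8878706861a) (nat_lit 0) (p (nat_lit 0x800080686078a) (nat_lit 0) (p (nat_lit 0x800078605850a) (nat_lit 0) (p (nat_lit 0x605850682) (nat_lit 0) (p (nat_lit 0x585048402) (nat_lit 0) (p (nat_lit 0x160014) (nat_lit 0) (p (nat_lit 0x16000c) (nat_lit 0) (p (nat_lit 0x60592) (nat_lit 0) (p (nat_lit 0x48512) (nat_lit 0) (p (nat_lit 0x50392) (nat_lit 0) (p (nat_lit 0x38312) (nat_lit 0) (p (nat_lit 0x40212) (nat_lit 0) (p (nat_lit 0x28192) (nat_lit 0) (p (nat_lit 0x30092) (nat_lit 0) (p (nat_lit 0x18012) (nat_lit 0) pn))))))))))))))))))))))) :=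
  Cl.node (nat_lit 0x200004) (nat_lit 2) (by decide +kernel) (ClAll.succ (ClAll.succ ClAll.zero n15) n16)

def n33 : Cl (O (nat_lit 1)) (R (nat_lit 135377))
    (p (nat_lit 0x89) (nat_lit 1) (p (nat_lit 0x109) (nat_lit 1) (p (nat_lit 0x101) (nat_lit 0) (p (nat_lit 0x111) (nat_lit 0) (p (nat_lit 0xd1) (nat_lit 1) (p (nat_lit 0x81) (nat_lit 0) (p (nat_lit 0x41) (nat_lit 1) (p (nat_lit 0x9080787089a) (nat_lit 0) (p (nat_lit 0x8878706861a) (nat_lit 0) (p (nat_lit 0x800080686078a) (nat_lit 0) (p (nat_lit 0x800078605850a) (nat_lit 0) (p (nat_lit 0x605850682) (nat_lit 0) (p (nat_lit 0x585048402) (nat_lit 0) (p (nat_lit 0x160014) (nat_lit 0) (p (nat_lit 0x16000c) (nat_lit 0) (p (nat_lit 0x60592) (nat_lit 0) (p (nat_lit 0x48512) (nat_lit 0) (p (nat_lit 0x50392) (nat_lit 0) (p (nat_lit 0x38312) (nat_lit 0) (p (nat_lit 0x40212) (nat_lit 0) (p (nat_lit 0x28192) (nat_lit 0) (p (nat_lit 0x30092)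 (nat_lit 0) (p (nat_lit 0x18012) (nat_lit 0) pn))))))))))))))))))))))) :=
  Cl.node (nat_lit 0xc9) (nat_lit 2) (by decide +kernel) (ClAll.succ (ClAll.succ ClAll.zero n17) s76)

def n34 : Cl (O (nat_lit 1)) (R (nat_lit 135377))
    (p (nat_lit 0xc9) (nat_lit 0) (p (nat_lit 0x89) (nat_lit 1) (p (nat_lit 0x101) (nat_lit 1) (p (nat_lit 0x111) (nat_lit 0) (p (nat_lit 0xd1) (nat_lit 1) (p (nat_lit 0x81) (nat_lit 0) (p (nat_lit 0x41) (nat_lit 1) (p (nat_lit 0x9080787089a) (nat_lit 0) (p (nat_lit 0x8878706861a) (nat_lit 0) (p (nat_lit 0x800080686078a) (nat_lit 0) (p (nat_lit 0x800078605850a) (nat_lit 0) (p (nat_lit 0x605850682) (nat_lit 0) (p (nat_lit 0x585048402) (nat_lit 0) (p (nat_lit 0x160014) (nat_lit 0) (p (nat_lit 0x16000c) (nat_lit 0) (p (nat_lit 0x60592) (nat_lit 0) (p (nat_lit 0x48512) (nat_lit 0) (p (nat_lit 0x50392) (nat_lit 0) (p (nat_lit 0x38312) (nat_lit 0) (p (nat_lit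 0x40212) (nat_lit 0) (p (nat_lit 0x28192) (nat_lit 0) (p (nat_lit 0x30092) (nat_lit 0) (p (nat_lit 0x18012) (nat_lit 0) pn))))))))))))))))))))))) :=
  Cl.node (nat_lit 0x200004) (nat_lit 2) (by decide +kernel) (ClAll.succ (ClAll.succ ClAll.zero s78) n18)

def n35 : Cl (O (nat_lit 1)) (R (nat_lit 135377))
    (p (nat_lit 0x111) (nat_lit 1) (p (nat_lit 0xd1) (nat_lit 1) (p (nat_lit 0xc9) (nat_lit 0) (p (nat_lit 0x119) (nat_lit 1) (p (nat_lit 0xc1) (nat_lit 0) (p (nat_lit 0x81) (nat_lit 1) (p (nat_lit 0x41) (nat_lit 1) (p (nat_lit 0x9080787089a) (nat_lit 0) (p (nat_lit 0x8878706861a) (nat_lit 0) (p (nat_lit 0x800080686078a) (nat_lit 0) (p (nat_lit 0x800078605850a) (nat_lit 0) (p (nat_lit 0x605850682) (nat_lit 0) (p (nat_lit 0x585048402) (nat_lit 0) (p (nat_lit 0x160014) (nat_lit 0) (p (nat_lit 0x16000c) (nat_lit 0) (p (nat_lit 0x60592) (nat_lit 0) (p (nat_lit 0x48512) (nat_lit 0)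 (p (nat_lit 0x50392) (nat_lit 0) (p (nat_lit 0x38312) (nat_lit 0) (p (nat_lit 0x40212) (nat_lit 0) (p (nat_lit 0x28192) (nat_lit 0) (p (nat_lit 0x30092) (nat_lit 0) (p (nat_lit 0x18012) (nat_lit 0) pn))))))))))))))))))))))) :=
  Cl.node (nat_lit 0x200004) (nat_lit 2) (by decide +kernel) (ClAll.succ (ClAll.succ ClAll.zero s96) s97)

def n36 : Cl (O (nat_lit 1)) (R (nat_lit 135377))
    (p (nat_lit 0x111) (nat_lit 1) (p (nat_lit 0x109) (nat_lit 0) (p (nat_lit 0xc9) (nat_lit 1) (p (nat_lit 0x119) (nat_lit 1) (p (nat_lit 0xc1) (nat_lit 0) (p (nat_lit 0x81) (nat_lit 1) (p (nat_lit 0x41) (nat_lit 1) (p (nat_lit 0x9080787089a) (nat_lit 0) (p (nat_lit 0x8878706861a) (nat_lit 0) (p (nat_lit 0x800080686078a) (nat_lit 0) (p (nat_lit 0x800078605850a) (nat_lit 0) (p (nat_lit 0x605850682) (nat_lit 0) (p (nat_lit 0x585048402) (nat_lit 0) (p (nat_lit 0x160014) (nat_lit 0) (p (nat_lit 0x16000c)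 (nat_lit 0) (p (nat_lit 0x60592) (nat_lit 0) (p (nat_lit 0x48512) (nat_lit 0) (p (nat_lit 0x50392) (nat_lit 0) (p (nat_lit 0x38312) (nat_lit 0) (p (nat_lit 0x40212) (nat_lit 0) (p (nat_lit 0x28192) (nat_lit 0) (p (nat_lit 0x30092) (nat_lit 0) (p (nat_lit 0x18012) (nat_lit 0) pn))))))))))))))))))))))) :=
  Cl.node (nat_lit 0x200004) (nat_lit 2) (by decide +kernel) (ClAll.succ (ClAll.succ ClAll.zero s99) s100)

def n37 : Cl (O (nat_lit 1)) (R (nat_lit 135377))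
    (p (nat_lit 0x109) (nat_lit 1) (p (nat_lit 0x101) (nat_lit 0) (p (nat_lit 0x119) (nat_lit 0) (p (nat_lit 0xd1) (nat_lit 0) (p (nat_lit 0x89) (nat_lit 0) (p (nat_lit 0x41) (nat_lit 0) (p (nat_lit 0x9080787089a) (nat_lit 0) (p (nat_lit 0x8878706861a) (nat_lit 0) (p (nat_lit 0x800080686078a) (nat_lit 0) (p (nat_lit 0x800078605850a) (nat_lit 0) (p (nat_lit 0x605850682) (nat_lit 0) (p (nat_lit 0x585048402) (nat_lit 0) (p (nat_lit 0x160014) (nat_lit 0) (p (nat_lit 0x16000c) (nat_lit 0) (p (nat_lit 0x60592) (nat_lit 0) (p (nat_lit 0x48512) (nat_lit 0) (p (nat_lit 0x50392) (nat_lit 0) (p (nat_lit 0x38312) (nat_lit 0) (p (nat_lit 0x40212) (nat_lit 0) (p (nat_lit 0x28192) (nat_lit 0) (p (nat_lit 0x30092) (nat_lit 0) (p (nat_lit 0x18012) (nat_lit 0) pn)))))))))))))))))))))) :=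
  Cl.node (nat_lit 0xc9) (nat_lit 2) (by decide +kernel) (ClAll.succ (ClAll.succ ClAll.zero s1) s2)

def n38 : Cl (O (nat_lit 1)) (R (nat_lit 135377))
    (p (nat_lit 0x81) (nat_lit 0) (p (nat_lit 0x101) (nat_lit 1) (p (nat_lit 0x119) (nat_lit 0) (p (nat_lit 0xd1) (nat_lit 0) (p (nat_lit 0x89) (nat_lit 0) (p (nat_lit 0x41) (nat_lit 0) (p (nat_lit 0x9080787089a) (nat_lit 0) (p (nat_lit 0x8878706861a) (nat_lit 0) (p (nat_lit 0x800080686078a) (nat_lit 0) (p (nat_lit 0x800078605850a) (nat_lit 0) (p (nat_lit 0x605850682) (nat_lit 0) (p (nat_lit 0x585048402) (nat_lit 0) (p (nat_lit 0x160014) (nat_lit 0) (p (nat_lit 0x16000c) (nat_lit 0) (p (nat_lit 0x60592) (nat_lit 0) (p (nat_lit 0x48512) (nat_lit 0) (p (nat_lit 0x50392) (nat_lit 0) (p (nat_lit 0x38312) (nat_lit 0) (p (nat_lit 0x40212) (nat_lit 0) (p (nat_lit 0x28192) (nat_lit 0) (p (nat_lit 0x30092) (nat_lit 0) (p (nat_lit 0x18012)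 (nat_lit 0) pn)))))))))))))))))))))) :=
  Cl.node (nat_lit 0xc9) (nat_lit 2) (by decide +kernel) (ClAll.succ (ClAll.succ ClAll.zero s3) n19)

def n39 : Cl (O (nat_lit 1)) (R (nat_lit 135377))
    (p (nat_lit 0x81) (nat_lit 1) (p (nat_lit 0x101) (nat_lit 1) (p (nat_lit 0x119) (nat_lit 0) (p (nat_lit 0xd1) (nat_lit 0) (p (nat_lit 0x89) (nat_lit 0) (p (nat_lit 0x41) (nat_lit 0) (p (nat_lit 0x9080787089a) (nat_lit 0) (p (nat_lit 0x8878706861a) (nat_lit 0) (p (nat_lit 0x800080686078a) (nat_lit 0) (p (nat_lit 0x800078605850a) (nat_lit 0) (p (nat_lit 0x605850682) (nat_lit 0) (p (nat_lit 0x585048402) (nat_lit 0) (p (nat_lit 0x160014) (nat_lit 0) (p (nat_lit 0x16000c) (nat_lit 0) (p (nat_lit 0x60592) (nat_lit 0) (p (nat_lit 0x48512) (nat_lit 0) (p (nat_lit 0x50392) (nat_lit 0) (p (nat_lit 0x38312) (nat_lit 0) (p (nat_lit 0x40212) (nat_lit 0) (p (nat_lit 0x28192) (nat_lit 0) (p (nat_lit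 0x30092) (nat_lit 0) (p (nat_lit 0x18012) (nat_lit 0) pn)))))))))))))))))))))) :=
  Cl.node (nat_lit 0xc1) (nat_lit 2) (by decide +kernel) (ClAll.succ (ClAll.succ ClAll.zero s6) s7)

def n40 : Cl (O (nat_lit 1)) (R (nat_lit 135377))
    (p (nat_lit 0xc9) (nat_lit 1) (p (nat_lit 0xc1) (nat_lit 0) (p (nat_lit 0x119) (nat_lit 1) (p (nat_lit 0xd1) (nat_lit 0) (p (nat_lit 0x89) (nat_lit 0) (p (nat_lit 0x41) (nat_lit 0) (p (nat_lit 0x9080787089a) (nat_lit 0) (p (nat_lit 0x8878706861a) (nat_lit 0) (p (nat_lit 0x800080686078a) (nat_lit 0) (p (nat_lit 0x800078605850a) (nat_lit 0) (p (nat_lit 0x605850682) (nat_lit 0) (p (nat_lit 0x585048402) (nat_lit 0) (p (nat_lit 0x160014) (nat_lit 0) (p (nat_lit 0x16000c) (nat_lit 0) (p (nat_lit 0x60592) (nat_lit 0) (p (nat_lit 0x48512) (nat_lit 0) (p (nat_lit 0x50392) (nat_lit 0) (p (nat_lit 0x38312) (nat_lit 0) (p (nat_lit 0x40212) (nat_lit 0) (p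 (nat_lit 0x28192) (nat_lit 0) (p (nat_lit 0x30092) (nat_lit 0) (p (nat_lit 0x18012) (nat_lit 0) pn)))))))))))))))))))))) :=
  Cl.node (nat_lit 0x109) (nat_lit 2) (by decide +kernel) (ClAll.succ (ClAll.succ ClAll.zero s9) n20)

def n41 : Cl (O (nat_lit 1)) (R (nat_lit 135377))
    (p (nat_lit 0x81) (nat_lit 0) (p (nat_lit 0xc1) (nat_lit 1) (p (nat_lit 0x119) (nat_lit 1) (p (nat_lit 0xd1) (nat_lit 0) (p (nat_lit 0x89) (nat_lit 0) (p (nat_lit 0x41) (nat_lit 0) (p (nat_lit 0x9080787089a) (nat_lit 0) (p (nat_lit 0x8878706861a) (nat_lit 0) (p (nat_lit 0x800080686078a) (nat_lit 0) (p (nat_lit 0x800078605850a) (nat_lit 0) (p (nat_lit 0x605850682) (nat_lit 0) (p (nat_lit 0x585048402) (nat_lit 0) (p (nat_lit 0x160014) (nat_lit 0) (p (nat_lit 0x16000c) (nat_lit 0) (p (nat_lit 0x60592) (nat_lit 0) (p (nat_lit 0x48512) (nat_lit 0) (p (nat_lit 0x50392) (nat_lit 0) (p (nat_lit 0x38312) (nat_lit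 0) (p (nat_lit 0x40212) (nat_lit 0) (p (nat_lit 0x28192) (nat_lit 0) (p (nat_lit 0x30092) (nat_lit 0) (p (nat_lit 0x18012) (nat_lit 0) pn)))))))))))))))))))))) :=
  Cl.node (nat_lit 0x109) (nat_lit 2) (by decide +kernel) (ClAll.succ (ClAll.succ ClAll.zero s13) n21)

def n42 : Cl (O (nat_lit 1)) (R (nat_lit 135377))
    (p (nat_lit 0x81) (nat_lit 1) (p (nat_lit 0xc1) (nat_lit 1) (p (nat_lit 0x119) (nat_lit 1) (p (nat_lit 0xd1) (nat_lit 0) (p (nat_lit 0x89) (nat_lit 0) (p (nat_lit 0x41) (nat_lit 0) (p (nat_lit 0x9080787089a) (nat_lit 0) (p (nat_lit 0x8878706861a) (nat_lit 0) (p (nat_lit 0x800080686078a) (nat_lit 0) (p (nat_lit 0x800078605850a) (nat_lit 0) (p (nat_lit 0x605850682) (nat_lit 0) (p (nat_lit 0x585048402) (nat_lit 0) (p (nat_lit 0x160014) (nat_lit 0) (p (nat_lit 0x16000c) (nat_lit 0) (p (nat_lit 0x60592) (nat_lit 0) (p (nat_lit 0x48512) (nat_lit 0) (p (nat_lit 0x50392)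 (nat_lit 0) (p (nat_lit 0x38312) (nat_lit 0) (p (nat_lit 0x40212) (nat_lit 0) (p (nat_lit 0x28192) (nat_lit 0) (p (nat_lit 0x30092) (nat_lit 0) (p (nat_lit 0x18012) (nat_lit 0) pn)))))))))))))))))))))) :=
  Cl.node (nat_lit 0x101) (nat_lit 2) (by decide +kernel) (ClAll.succ (ClAll.succ ClAll.zero n22) s18)

def n43 : Cl (O (nat_lit 1)) (R (nat_lit 135377))
    (p (nat_lit 0x81) (nat_lit 1) (p (nat_lit 0x101) (nat_lit 1) (p (nat_lit 0x111) (nat_lit 0) (p (nat_lit 0xd1) (nat_lit 1) (p (nat_lit 0x89) (nat_lit 0) (p (nat_lit 0x41) (nat_lit 0) (p (nat_lit 0x9080787089a) (nat_lit 0) (p (nat_lit 0x8878706861a) (nat_lit 0) (p (nat_lit 0x800080686078a) (nat_lit 0) (p (nat_lit 0x800078605850a) (nat_lit 0) (p (nat_lit 0x605850682) (nat_lit 0) (p (nat_lit 0x585048402) (nat_lit 0) (p (nat_lit 0x160014) (nat_lit 0) (p (nat_lit 0x16000c) (nat_lit 0) (p (nat_lit 0x60592) (nat_lit 0) (p (nat_lit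 0x48512) (nat_lit 0) (p (nat_lit 0x50392) (nat_lit 0) (p (nat_lit 0x38312) (nat_lit 0) (p (nat_lit 0x40212) (nat_lit 0) (p (nat_lit 0x28192) (nat_lit 0) (p (nat_lit 0x30092) (nat_lit 0) (p (nat_lit 0x18012) (nat_lit 0) pn)))))))))))))))))))))) :=
  Cl.node (nat_lit 0xc1) (nat_lit 2) (by decide +kernel) (ClAll.succ (ClAll.succ ClAll.zero n23) s24)

def n44 : Cl (O (nat_lit 1)) (R (nat_lit 135377))
    (p (nat_lit 0x109) (nat_lit 1) (p (nat_lit 0x101) (nat_lit 0) (p (nat_lit 0x119) (nat_lit 0) (p (nat_lit 0xd1) (nat_lit 0) (p (nat_lit 0x81) (nat_lit 0) (p (nat_lit 0x41) (nat_lit 1) (p (nat_lit 0x9080787089a) (nat_lit 0) (p (nat_lit 0x8878706861a) (nat_lit 0) (p (nat_lit 0x800080686078a) (nat_lit 0) (p (nat_lit 0x800078605850a) (nat_lit 0) (p (nat_lit 0x605850682) (nat_lit 0) (p (nat_lit 0x585048402) (nat_lit 0) (p (nat_lit 0x160014) (nat_lit 0) (p (nat_lit 0x16000c) (nat_lit 0)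 (p (nat_lit 0x60592) (nat_lit 0) (p (nat_lit 0x48512) (nat_lit 0) (p (nat_lit 0x50392) (nat_lit 0) (p (nat_lit 0x38312) (nat_lit 0) (p (nat_lit 0x40212) (nat_lit 0) (p (nat_lit 0x28192) (nat_lit 0) (p (nat_lit 0x30092) (nat_lit 0) (p (nat_lit 0x18012) (nat_lit 0) pn)))))))))))))))))))))) :=
  Cl.node (nat_lit 0x89) (nat_lit 2) (by decide +kernel) (ClAll.succ (ClAll.succ ClAll.zero n24) n25)

def n45 : Cl (O (nat_lit 1)) (R (nat_lit 135377))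
    (p (nat_lit 0xc1) (nat_lit 0) (p (nat_lit 0x101) (nat_lit 1) (p (nat_lit 0x119) (nat_lit 0) (p (nat_lit 0xd1) (nat_lit 0) (p (nat_lit 0x81) (nat_lit 0) (p (nat_lit 0x41) (nat_lit 1) (p (nat_lit 0x9080787089a) (nat_lit 0) (p (nat_lit 0x8878706861a) (nat_lit 0) (p (nat_lit 0x800080686078a) (nat_lit 0) (p (nat_lit 0x800078605850a) (nat_lit 0) (p (nat_lit 0x605850682) (nat_lit 0) (p (nat_lit 0x585048402) (nat_lit 0) (p (nat_lit 0x160014) (nat_lit 0) (p (nat_lit 0x16000c) (nat_lit 0) (p (nat_lit 0x60592) (nat_lit 0) (p (nat_lit 0x48512) (nat_lit 0) (p (nat_lit 0x50392) (nat_lit 0) (p (nat_lit 0x38312) (nat_lit 0) (p (nat_lit 0x40212) (nat_lit 0) (p (nat_lit 0x28192) (nat_lit 0) (p (nat_lit 0x30092) (nat_lit 0) (p (nat_lit 0x18012) (nat_lit 0) pn)))))))))))))))))))))) :=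
  Cl.node (nat_lit 0x89) (nat_lit 2) (by decide +kernel) (ClAll.succ (ClAll.succ ClAll.zero s40) n26)

def n46 : Cl (O (nat_lit 1)) (R (nat_lit 135377))
    (p (nat_lit 0xc1) (nat_lit 1) (p (nat_lit 0x101) (nat_lit 1) (p (nat_lit 0x119) (nat_lit 0) (p (nat_lit 0xd1) (nat_lit 0) (p (nat_lit 0x81) (nat_lit 0) (p (nat_lit 0x41) (nat_lit 1) (p (nat_lit 0x9080787089a) (nat_lit 0) (p (nat_lit 0x8878706861a) (nat_lit 0) (p (nat_lit 0x800080686078a) (nat_lit 0) (p (nat_lit 0x800078605850a) (nat_lit 0) (p (nat_lit 0x605850682) (nat_lit 0) (p (nat_lit 0x585048402) (nat_lit 0) (p (nat_lit 0x160014) (nat_lit 0) (p (nat_lit 0x16000c) (nat_lit 0) (p (nat_lit 0x60592) (nat_lit 0) (p (nat_lit 0x48512) (nat_lit 0) (p (nat_lit 0x50392) (nat_lit 0) (p (nat_lit 0x38312) (nat_lit 0) (p (nat_lit 0x40212) (nat_lit 0) (p (nat_lit 0x28192) (nat_lit 0) (p (nat_lit 0x30092) (nat_lit 0) (p (nat_lit 0x18012)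 (nat_lit 0) pn)))))))))))))))))))))) :=
  Cl.node (nat_lit 0x89) (nat_lit 2) (by decide +kernel) (ClAll.succ (ClAll.succ ClAll.zero n27) n28)

def n47 : Cl (O (nat_lit 1)) (R (nat_lit 135377))
    (p (nat_lit 0xc9) (nat_lit 1) (p (nat_lit 0xc1) (nat_lit 0) (p (nat_lit 0x119) (nat_lit 1) (p (nat_lit 0xd1) (nat_lit 0) (p (nat_lit 0x81) (nat_lit 0) (p (nat_lit 0x41) (nat_lit 1) (p (nat_lit 0x9080787089a) (nat_lit 0) (p (nat_lit 0x8878706861a) (nat_lit 0) (p (nat_lit 0x800080686078a) (nat_lit 0) (p (nat_lit 0x800078605850a) (nat_lit 0) (p (nat_lit 0x605850682) (nat_lit 0) (p (nat_lit 0x585048402) (nat_lit 0) (p (nat_lit 0x160014) (nat_lit 0) (p (nat_lit 0x16000c) (nat_lit 0) (p (nat_lit 0x60592) (nat_lit 0) (p (nat_lit 0x48512) (nat_lit 0) (p (nat_lit 0x50392) (nat_lit 0) (p (nat_lit 0x38312) (nat_lit 0) (p (nat_lit 0x40212) (nat_lit 0) (p (nat_lit 0x28192) (nat_lit 0) (p (nat_lit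 0x30092) (nat_lit 0) (p (nat_lit 0x18012) (nat_lit 0) pn)))))))))))))))))))))) :=
  Cl.node (nat_lit 0x89) (nat_lit 2) (by decide +kernel) (ClAll.succ (ClAll.succ ClAll.zero s53) n29)

def n48 : Cl (O (nat_lit 1)) (R (nat_lit 135377))
    (p (nat_lit 0x101) (nat_lit 0) (p (nat_lit 0xc1) (nat_lit 1) (p (nat_lit 0x119) (nat_lit 1) (p (nat_lit 0xd1) (nat_lit 0) (p (nat_lit 0x81) (nat_lit 0) (p (nat_lit 0x41) (nat_lit 1) (p (nat_lit 0x9080787089a) (nat_lit 0) (p (nat_lit 0x8878706861a) (nat_lit 0) (p (nat_lit 0x800080686078a) (nat_lit 0) (p (nat_lit 0x800078605850a) (nat_lit 0) (p (nat_lit 0x605850682) (nat_lit 0) (p (nat_lit 0x585048402) (nat_lit 0) (p (nat_lit 0x160014) (nat_lit 0) (p (nat_lit 0x16000c) (nat_lit 0) (p (nat_lit 0x60592) (nat_lit 0) (p (nat_lit 0x48512) (nat_lit 0) (p (nat_lit 0x50392) (nat_lit 0) (p (nat_lit 0x38312) (nat_lit 0) (p (nat_lit 0x40212) (nat_lit 0)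 (p (nat_lit 0x28192) (nat_lit 0) (p (nat_lit 0x30092) (nat_lit 0) (p (nat_lit 0x18012) (nat_lit 0) pn)))))))))))))))))))))) :=
  Cl.node (nat_lit 0x89) (nat_lit 2) (by decide +kernel) (ClAll.succ (ClAll.succ ClAll.zero s58) n30)

def n49 : Cl (O (nat_lit 1)) (R (nat_lit 135377))
    (p (nat_lit 0x101) (nat_lit 1) (p (nat_lit 0xc1) (nat_lit 1) (p (nat_lit 0x119) (nat_lit 1) (p (nat_lit 0xd1) (nat_lit 0) (p (nat_lit 0x81) (nat_lit 0) (p (nat_lit 0x41) (nat_lit 1) (p (nat_lit 0x9080787089a) (nat_lit 0) (p (nat_lit 0x8878706861a) (nat_lit 0) (p (nat_lit 0x800080686078a) (nat_lit 0) (p (nat_lit 0x800078605850a) (nat_lit 0) (p (nat_lit 0x605850682) (nat_lit 0) (p (nat_lit 0x585048402) (nat_lit 0) (p (nat_lit 0x160014) (nat_lit 0) (p (nat_lit 0x16000c) (nat_lit 0) (p (nat_lit 0x60592) (nat_lit 0) (p (nat_lit 0x48512) (nat_lit 0) (p (nat_lit 0x50392) (nat_lit 0) (p (nat_lit 0x38312)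 (nat_lit 0) (p (nat_lit 0x40212) (nat_lit 0) (p (nat_lit 0x28192) (nat_lit 0) (p (nat_lit 0x30092) (nat_lit 0) (p (nat_lit 0x18012) (nat_lit 0) pn)))))))))))))))))))))) :=
  Cl.node (nat_lit 0x89) (nat_lit 2) (by decide +kernel) (ClAll.succ (ClAll.succ ClAll.zero n31) n32)

def n50 : Cl (O (nat_lit 1)) (R (nat_lit 135377))
    (p (nat_lit 0x109) (nat_lit 1) (p (nat_lit 0x101) (nat_lit 0) (p (nat_lit 0x111) (nat_lit 0) (p (nat_lit 0xd1) (nat_lit 1) (p (nat_lit 0x81) (nat_lit 0) (p (nat_lit 0x41) (nat_lit 1) (p (nat_lit 0x9080787089a) (nat_lit 0) (p (nat_lit 0x8878706861a) (nat_lit 0) (p (nat_lit 0x800080686078a) (nat_lit 0) (p (nat_lit 0x800078605850a) (nat_lit 0) (p (nat_lit 0x605850682) (nat_lit 0) (p (nat_lit 0x585048402) (nat_lit 0) (p (nat_lit 0x160014) (nat_lit 0) (p (nat_lit 0x16000c) (nat_lit 0) (p (nat_lit 0x60592) (nat_lit 0) (p (nat_lit 0x48512) (nat_lit 0) (p (nat_lit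 0x50392) (nat_lit 0) (p (nat_lit 0x38312) (nat_lit 0) (p (nat_lit 0x40212) (nat_lit 0) (p (nat_lit 0x28192) (nat_lit 0) (p (nat_lit 0x30092) (nat_lit 0) (p (nat_lit 0x18012) (nat_lit 0) pn)))))))))))))))))))))) :=
  Cl.node (nat_lit 0x89) (nat_lit 2) (by decide +kernel) (ClAll.succ (ClAll.succ ClAll.zero s73) n33)

def n51 : Cl (O (nat_lit 1)) (R (nat_lit 135377))
    (p (nat_lit 0x89) (nat_lit 1) (p (nat_lit 0x101) (nat_lit 1) (p (nat_lit 0x111) (nat_lit 0) (p (nat_lit 0xd1) (nat_lit 1) (p (nat_lit 0x81) (nat_lit 0) (p (nat_lit 0x41) (nat_lit 1) (p (nat_lit 0x9080787089a) (nat_lit 0) (p (nat_lit 0x8878706861a) (nat_lit 0) (p (nat_lit 0x800080686078a) (nat_lit 0) (p (nat_lit 0x800078605850a) (nat_lit 0) (p (nat_lit 0x605850682) (nat_lit 0) (p (nat_lit 0x585048402) (nat_lit 0) (p (nat_lit 0x160014) (nat_lit 0) (p (nat_lit 0x16000c) (nat_lit 0) (p (nat_lit 0x60592) (nat_lit 0)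 (p (nat_lit 0x48512) (nat_lit 0) (p (nat_lit 0x50392) (nat_lit 0) (p (nat_lit 0x38312) (nat_lit 0) (p (nat_lit 0x40212) (nat_lit 0) (p (nat_lit 0x28192) (nat_lit 0) (p (nat_lit 0x30092) (nat_lit 0) (p (nat_lit 0x18012) (nat_lit 0) pn)))))))))))))))))))))) :=
  Cl.node (nat_lit 0xc9) (nat_lit 2) (by decide +kernel) (ClAll.succ (ClAll.succ ClAll.zero n34) s83)

def n52 : Cl (O (nat_lit 1)) (R (nat_lit 135377))
    (p (nat_lit 0xc9) (nat_lit 1) (p (nat_lit 0x89) (nat_lit 1) (p (nat_lit 0x111) (nat_lit 1) (p (nat_lit 0xd1) (nat_lit 1) (p (nat_lit 0x81) (nat_lit 0) (p (nat_lit 0x41) (nat_lit 1) (p (nat_lit 0x9080787089a) (nat_lit 0) (p (nat_lit 0x8878706861a) (nat_lit 0) (p (nat_lit 0x800080686078a) (nat_lit 0) (p (nat_lit 0x800078605850a) (nat_lit 0) (p (nat_lit 0x605850682) (nat_lit 0) (p (nat_lit 0x585048402) (nat_lit 0) (p (nat_lit 0x160014) (nat_lit 0) (p (nat_lit 0x16000c) (nat_lit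 0) (p (nat_lit 0x60592) (nat_lit 0) (p (nat_lit 0x48512) (nat_lit 0) (p (nat_lit 0x50392) (nat_lit 0) (p (nat_lit 0x38312) (nat_lit 0) (p (nat_lit 0x40212) (nat_lit 0) (p (nat_lit 0x28192) (nat_lit 0) (p (nat_lit 0x30092) (nat_lit 0) (p (nat_lit 0x18012) (nat_lit 0) pn)))))))))))))))))))))) :=
  Cl.node (nat_lit 0x109) (nat_lit 2) (by decide +kernel) (ClAll.succ (ClAll.succ ClAll.zero s86) s87)

def n53 : Cl (O (nat_lit 1)) (R (nat_lit 135377))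
    (p (nat_lit 0x109) (nat_lit 1) (p (nat_lit 0x101) (nat_lit 0) (p (nat_lit 0x119) (nat_lit 0) (p (nat_lit 0xc1) (nat_lit 0) (p (nat_lit 0x81) (nat_lit 1) (p (nat_lit 0x41) (nat_lit 1) (p (nat_lit 0x9080787089a) (nat_lit 0) (p (nat_lit 0x8878706861a) (nat_lit 0) (p (nat_lit 0x800080686078a) (nat_lit 0) (p (nat_lit 0x800078605850a) (nat_lit 0) (p (nat_lit 0x605850682) (nat_lit 0) (p (nat_lit 0x585048402) (nat_lit 0) (p (nat_lit 0x160014) (nat_lit 0) (p (nat_lit 0x16000c) (nat_lit 0) (p (nat_lit 0x60592) (nat_lit 0) (p (nat_lit 0x48512) (nat_lit 0) (p (nat_lit 0x50392) (nat_lit 0) (p (nat_lit 0x38312) (nat_lit 0) (p (nat_lit 0x40212) (nat_lit 0) (p (nat_lit 0x28192) (nat_lit 0) (p (nat_lit 0x30092) (nat_lit 0) (p (nat_lit 0x18012) (nat_lit 0) pn)))))))))))))))))))))) :=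
  Cl.node (nat_lit 0xc9) (nat_lit 2) (by decide +kernel) (ClAll.succ (ClAll.succ ClAll.zero s89) s90)

def n54 : Cl (O (nat_lit 1)) (R (nat_lit 135377))
    (p (nat_lit 0xc9) (nat_lit 0) (p (nat_lit 0x101) (nat_lit 1) (p (nat_lit 0x119) (nat_lit 0) (p (nat_lit 0xc1) (nat_lit 0) (p (nat_lit 0x81) (nat_lit 1) (p (nat_lit 0x41) (nat_lit 1) (p (nat_lit 0x9080787089a) (nat_lit 0) (p (nat_lit 0x8878706861a) (nat_lit 0) (p (nat_lit 0x800080686078a) (nat_lit 0) (p (nat_lit 0x800078605850a) (nat_lit 0) (p (nat_lit 0x605850682) (nat_lit 0) (p (nat_lit 0x585048402) (nat_lit 0) (p (nat_lit 0x160014) (nat_lit 0) (p (nat_lit 0x16000c) (nat_lit 0) (p (nat_lit 0x60592) (nat_lit 0) (p (nat_lit 0x48512) (nat_lit 0) (p (nat_lit 0x50392) (nat_lit 0) (p (nat_lit 0x38312) (nat_lit 0) (p (nat_lit 0x40212) (nat_lit 0) (p (nat_lit 0x28192) (nat_lit 0) (p (nat_lit 0x30092) (nat_lit 0) (p (nat_lit 0x18012)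 (nat_lit 0) pn)))))))))))))))))))))) :=
  Cl.node (nat_lit 0xd1) (nat_lit 2) (by decide +kernel) (ClAll.succ (ClAll.succ ClAll.zero s91) s92)

def n55 : Cl (O (nat_lit 1)) (R (nat_lit 135377))
    (p (nat_lit 0xd1) (nat_lit 1) (p (nat_lit 0xc9) (nat_lit 0) (p (nat_lit 0x119) (nat_lit 1) (p (nat_lit 0xc1) (nat_lit 0) (p (nat_lit 0x81) (nat_lit 1) (p (nat_lit 0x41) (nat_lit 1) (p (nat_lit 0x9080787089a) (nat_lit 0) (p (nat_lit 0x8878706861a) (nat_lit 0) (p (nat_lit 0x800080686078a) (nat_lit 0) (p (nat_lit 0x800078605850a) (nat_lit 0) (p (nat_lit 0x605850682) (nat_lit 0) (p (nat_lit 0x585048402) (nat_lit 0) (p (nat_lit 0x160014) (nat_lit 0) (p (nat_lit 0x16000c) (nat_lit 0) (p (nat_lit 0x60592) (nat_lit 0) (p (nat_lit 0x48512) (nat_lit 0) (p (nat_lit 0x50392) (nat_lit 0) (p (nat_lit 0x38312) (nat_lit 0) (p (nat_lit 0x40212) (nat_lit 0) (p (nat_lit 0x28192) (nat_lit 0) (p (nat_lit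 0x30092) (nat_lit 0) (p (nat_lit 0x18012) (nat_lit 0) pn)))))))))))))))))))))) :=
  Cl.node (nat_lit 0x111) (nat_lit 2) (by decide +kernel) (ClAll.succ (ClAll.succ ClAll.zero s95) n35)

def n56 : Cl (O (nat_lit 1)) (R (nat_lit 135377))
    (p (nat_lit 0x109) (nat_lit 0) (p (nat_lit 0xc9) (nat_lit 1) (p (nat_lit 0x119) (nat_lit 1) (p (nat_lit 0xc1) (nat_lit 0) (p (nat_lit 0x81) (nat_lit 1) (p (nat_lit 0x41) (nat_lit 1) (p (nat_lit 0x9080787089a) (nat_lit 0) (p (nat_lit 0x8878706861a) (nat_lit 0) (p (nat_lit 0x800080686078a) (nat_lit 0) (p (nat_lit 0x800078605850a) (nat_lit 0) (p (nat_lit 0x605850682) (nat_lit 0) (p (nat_lit 0x585048402) (nat_lit 0) (p (nat_lit 0x160014) (nat_lit 0) (p (nat_lit 0x16000c) (nat_lit 0) (p (nat_lit 0x60592) (nat_lit 0) (p (nat_lit 0x48512) (nat_lit 0) (p (nat_lit 0x50392) (nat_lit 0) (p (nat_lit 0x38312) (nat_lit 0) (p (nat_lit 0x40212) (nat_lit 0)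 (p (nat_lit 0x28192) (nat_lit 0) (p (nat_lit 0x30092) (nat_lit 0) (p (nat_lit 0x18012) (nat_lit 0) pn)))))))))))))))))))))) :=
  Cl.node (nat_lit 0x111) (nat_lit 2) (by decide +kernel) (ClAll.succ (ClAll.succ ClAll.zero s98) n36)

def n57 : Cl (O (nat_lit 1)) (R (nat_lit 135377))
    (p (nat_lit 0x101) (nat_lit 0) (p (nat_lit 0x119) (nat_lit 0) (p (nat_lit 0xd1) (nat_lit 0) (p (nat_lit 0x89) (nat_lit 0) (p (nat_lit 0x41) (nat_lit 0) (p (nat_lit 0x9080787089a) (nat_lit 0) (p (nat_lit 0x8878706861a) (nat_lit 0) (p (nat_lit 0x800080686078a) (nat_lit 0) (p (nat_lit 0x800078605850a) (nat_lit 0) (p (nat_lit 0x605850682) (nat_lit 0) (p (nat_lit 0x585048402) (nat_lit 0) (p (nat_lit 0x160014) (nat_lit 0) (p (nat_lit 0x16000c) (nat_lit 0) (p (nat_lit 0x60592) (nat_lit 0) (p (nat_lit 0x48512) (nat_lit 0) (p (nat_lit 0x50392) (nat_lit 0) (p (nat_lit 0x38312) (nat_lit 0) (p (nat_lit 0x40212)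 (nat_lit 0) (p (nat_lit 0x28192) (nat_lit 0) (p (nat_lit 0x30092) (nat_lit 0) (p (nat_lit 0x18012) (nat_lit 0) pn))))))))))))))))))))) :=
  Cl.node (nat_lit 0x109) (nat_lit 2) (by decide +kernel) (ClAll.succ (ClAll.succ ClAll.zero s0) n37)

def n58 : Cl (O (nat_lit 1)) (R (nat_lit 135377))
    (p (nat_lit 0x101) (nat_lit 1) (p (nat_lit 0x119) (nat_lit 0) (p (nat_lit 0xd1) (nat_lit 0) (p (nat_lit 0x89) (nat_lit 0) (p (nat_lit 0x41) (nat_lit 0) (p (nat_lit 0x9080787089a) (nat_lit 0) (p (nat_lit 0x8878706861a) (nat_lit 0) (p (nat_lit 0x800080686078a) (nat_lit 0) (p (nat_lit 0x800078605850a) (nat_lit 0) (p (nat_lit 0x605850682) (nat_lit 0) (p (nat_lit 0x585048402) (nat_lit 0) (p (nat_lit 0x160014) (nat_lit 0) (p (nat_lit 0x16000c) (nat_lit 0) (p (nat_lit 0x60592) (nat_lit 0) (p (nat_lit 0x48512) (nat_lit 0) (p (nat_lit 0x50392) (nat_lit 0) (p (nat_lit 0x38312) (nat_lit 0) (p (nat_lit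 0x40212) (nat_lit 0) (p (nat_lit 0x28192) (nat_lit 0) (p (nat_lit 0x30092) (nat_lit 0) (p (nat_lit 0x18012) (nat_lit 0) pn))))))))))))))))))))) :=
  Cl.node (nat_lit 0x81) (nat_lit 2) (by decide +kernel) (ClAll.succ (ClAll.succ ClAll.zero n38) n39)

def n59 : Cl (O (nat_lit 1)) (R (nat_lit 135377))
    (p (nat_lit 0xc1) (nat_lit 0) (p (nat_lit 0x119) (nat_lit 1) (p (nat_lit 0xd1) (nat_lit 0) (p (nat_lit 0x89) (nat_lit 0) (p (nat_lit 0x41) (nat_lit 0) (p (nat_lit 0x9080787089a) (nat_lit 0) (p (nat_lit 0x8878706861a) (nat_lit 0) (p (nat_lit 0x800080686078a) (nat_lit 0) (p (nat_lit 0x800078605850a) (nat_lit 0) (p (nat_lit 0x605850682) (nat_lit 0) (p (nat_lit 0x585048402) (nat_lit 0) (p (nat_lit 0x160014) (nat_lit 0) (p (nat_lit 0x16000c) (nat_lit 0) (p (nat_lit 0x60592) (nat_lit 0) (p (nat_lit 0x48512) (nat_lit 0) (p (nat_lit 0x50392) (nat_lit 0) (p (nat_lit 0x38312) (nat_lit 0)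 (p (nat_lit 0x40212) (nat_lit 0) (p (nat_lit 0x28192) (nat_lit 0) (p (nat_lit 0x30092) (nat_lit 0) (p (nat_lit 0x18012) (nat_lit 0) pn))))))))))))))))))))) :=
  Cl.node (nat_lit 0xc9) (nat_lit 2) (by decide +kernel) (ClAll.succ (ClAll.succ ClAll.zero s8) n40)

def n60 : Cl (O (nat_lit 1)) (R (nat_lit 135377))
    (p (nat_lit 0xc1) (nat_lit 1) (p (nat_lit 0x119) (nat_lit 1) (p (nat_lit 0xd1) (nat_lit 0) (p (nat_lit 0x89) (nat_lit 0) (p (nat_lit 0x41) (nat_lit 0) (p (nat_lit 0x9080787089a) (nat_lit 0) (p (nat_lit 0x8878706861a) (nat_lit 0) (p (nat_lit 0x800080686078a) (nat_lit 0) (p (nat_lit 0x800078605850a) (nat_lit 0) (p (nat_lit 0x605850682) (nat_lit 0) (p (nat_lit 0x585048402) (nat_lit 0) (p (nat_lit 0x160014) (nat_lit 0) (p (nat_lit 0x16000c) (nat_lit 0) (p (nat_lit 0x60592) (nat_lit 0) (p (nat_lit 0x48512) (nat_lit 0) (p (nat_lit 0x50392) (nat_lit 0) (p (nat_lit 0x38312)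 (nat_lit 0) (p (nat_lit 0x40212) (nat_lit 0) (p (nat_lit 0x28192) (nat_lit 0) (p (nat_lit 0x30092) (nat_lit 0) (p (nat_lit 0x18012) (nat_lit 0) pn))))))))))))))))))))) :=
  Cl.node (nat_lit 0x81) (nat_lit 2) (by decide +kernel) (ClAll.succ (ClAll.succ ClAll.zero n41) n42)

def n61 : Cl (O (nat_lit 1)) (R (nat_lit 135377))
    (p (nat_lit 0x101) (nat_lit 0) (p (nat_lit 0x111) (nat_lit 0) (p (nat_lit 0xd1) (nat_lit 1) (p (nat_lit 0x89) (nat_lit 0) (p (nat_lit 0x41) (nat_lit 0) (p (nat_lit 0x9080787089a) (nat_lit 0) (p (nat_lit 0x8878706861a) (nat_lit 0) (p (nat_lit 0x800080686078a) (nat_lit 0) (p (nat_lit 0x800078605850a) (nat_lit 0) (p (nat_lit 0x605850682) (nat_lit 0) (p (nat_lit 0x585048402) (nat_lit 0) (p (nat_lit 0x160014) (nat_lit 0) (p (nat_lit 0x16000c) (nat_lit 0) (p (nat_lit 0x60592) (nat_lit 0) (p (nat_lit 0x48512) (nat_lit 0) (p (nat_lit 0x50392) (nat_lit 0) (p (nat_lit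 0x38312) (nat_lit 0) (p (nat_lit 0x40212) (nat_lit 0) (p (nat_lit 0x28192) (nat_lit 0) (p (nat_lit 0x30092) (nat_lit 0) (p (nat_lit 0x18012) (nat_lit 0) pn))))))))))))))))))))) :=
  Cl.node (nat_lit 0x109) (nat_lit 2) (by decide +kernel) (ClAll.succ (ClAll.succ ClAll.zero s19) s20)

def n62 : Cl (O (nat_lit 1)) (R (nat_lit 135377))
    (p (nat_lit 0x101) (nat_lit 1) (p (nat_lit 0x111) (nat_lit 0) (p (nat_lit 0xd1) (nat_lit 1) (p (nat_lit 0x89) (nat_lit 0) (p (nat_lit 0x41) (nat_lit 0) (p (nat_lit 0x9080787089a) (nat_lit 0) (p (nat_lit 0x8878706861a) (nat_lit 0) (p (nat_lit 0x800080686078a) (nat_lit 0) (p (nat_lit 0x800078605850a) (nat_lit 0) (p (nat_lit 0x605850682) (nat_lit 0) (p (nat_lit 0x585048402) (nat_lit 0) (p (nat_lit 0x160014) (nat_lit 0) (p (nat_lit 0x16000c) (nat_lit 0) (p (nat_lit 0x60592) (nat_lit 0) (p (nat_lit 0x48512) (nat_lit 0) (p (nat_lit 0x50392) (nat_lit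 0) (p (nat_lit 0x38312) (nat_lit 0) (p (nat_lit 0x40212) (nat_lit 0) (p (nat_lit 0x28192) (nat_lit 0) (p (nat_lit 0x30092) (nat_lit 0) (p (nat_lit 0x18012) (nat_lit 0) pn))))))))))))))))))))) :=
  Cl.node (nat_lit 0x81) (nat_lit 2) (by decide +kernel) (ClAll.succ (ClAll.succ ClAll.zero s21) n43)

def n63 : Cl (O (nat_lit 1)) (R (nat_lit 135377))
    (p (nat_lit 0x81) (nat_lit 1) (p (nat_lit 0x111) (nat_lit 1) (p (nat_lit 0xd1) (nat_lit 1) (p (nat_lit 0x89) (nat_lit 0) (p (nat_lit 0x41) (nat_lit 0) (p (nat_lit 0x9080787089a) (nat_lit 0) (p (nat_lit 0x8878706861a) (nat_lit 0) (p (nat_lit 0x800080686078a) (nat_lit 0) (p (nat_lit 0x800078605850a) (nat_lit 0) (p (nat_lit 0x605850682) (nat_lit 0) (p (nat_lit 0x585048402) (nat_lit 0) (p (nat_lit 0x160014) (nat_lit 0) (p (nat_lit 0x16000c) (nat_lit 0) (p (nat_lit 0x60592) (nat_lit 0) (p (nat_lit 0x48512) (nat_lit 0) (p (nat_lit 0x50392)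 (nat_lit 0) (p (nat_lit 0x38312) (nat_lit 0) (p (nat_lit 0x40212) (nat_lit 0) (p (nat_lit 0x28192) (nat_lit 0) (p (nat_lit 0x30092) (nat_lit 0) (p (nat_lit 0x18012) (nat_lit 0) pn))))))))))))))))))))) :=
  Cl.node (nat_lit 0xc1) (nat_lit 2) (by decide +kernel) (ClAll.succ (ClAll.succ ClAll.zero s26) s27)

def n64 : Cl (O (nat_lit 1)) (R (nat_lit 135377))
    (p (nat_lit 0x101) (nat_lit 0) (p (nat_lit 0x119) (nat_lit 0) (p (nat_lit 0xc9) (nat_lit 0) (p (nat_lit 0x89) (nat_lit 1) (p (nat_lit 0x41) (nat_lit 0) (p (nat_lit 0x9080787089a) (nat_lit 0) (p (nat_lit 0x8878706861a) (nat_lit 0) (p (nat_lit 0x800080686078a) (nat_lit 0) (p (nat_lit 0x800078605850a) (nat_lit 0) (p (nat_lit 0x605850682) (nat_lit 0) (p (nat_lit 0x585048402) (nat_lit 0) (p (nat_lit 0x160014) (nat_lit 0) (p (nat_lit 0x16000c) (nat_lit 0) (p (nat_lit 0x60592) (nat_lit 0) (p (nat_lit 0x48512) (nat_lit 0) (p (nat_lit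 0x50392) (nat_lit 0) (p (nat_lit 0x38312) (nat_lit 0) (p (nat_lit 0x40212) (nat_lit 0) (p (nat_lit 0x28192) (nat_lit 0) (p (nat_lit 0x30092) (nat_lit 0) (p (nat_lit 0x18012) (nat_lit 0) pn))))))))))))))))))))) :=
  Cl.node (nat_lit 0x109) (nat_lit 2) (by decide +kernel) (ClAll.succ (ClAll.succ ClAll.zero s28) s29)

def n65 : Cl (O (nat_lit 1)) (R (nat_lit 135377))
    (p (nat_lit 0xc1) (nat_lit 1) (p (nat_lit 0x119) (nat_lit 1) (p (nat_lit 0xc9) (nat_lit 0) (p (nat_lit 0x89) (nat_lit 1) (p (nat_lit 0x41) (nat_lit 0) (p (nat_lit 0x9080787089a) (nat_lit 0) (p (nat_lit 0x8878706861a) (nat_lit 0) (p (nat_lit 0x800080686078a) (nat_lit 0) (p (nat_lit 0x800078605850a) (nat_lit 0) (p (nat_lit 0x605850682) (nat_lit 0) (p (nat_lit 0x585048402) (nat_lit 0) (p (nat_lit 0x160014) (nat_lit 0) (p (nat_lit 0x16000c) (nat_lit 0) (p (nat_lit 0x60592) (nat_lit 0) (p (nat_lit 0x48512) (nat_lit 0)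 (p (nat_lit 0x50392) (nat_lit 0) (p (nat_lit 0x38312) (nat_lit 0) (p (nat_lit 0x40212) (nat_lit 0) (p (nat_lit 0x28192) (nat_lit 0) (p (nat_lit 0x30092) (nat_lit 0) (p (nat_lit 0x18012) (nat_lit 0) pn))))))))))))))))))))) :=
  Cl.node (nat_lit 0x101) (nat_lit 2) (by decide +kernel) (ClAll.succ (ClAll.succ ClAll.zero s32) s33)

def n66 : Cl (O (nat_lit 1)) (R (nat_lit 135377))
    (p (nat_lit 0x101) (nat_lit 0) (p (nat_lit 0x119) (nat_lit 0) (p (nat_lit 0xd1) (nat_lit 0) (p (nat_lit 0x81) (nat_lit 0) (p (nat_lit 0x41) (nat_lit 1) (p (nat_lit 0x9080787089a) (nat_lit 0) (p (nat_lit 0x8878706861a) (nat_lit 0) (p (nat_lit 0x800080686078a) (nat_lit 0) (p (nat_lit 0x800078605850a) (nat_lit 0) (p (nat_lit 0x605850682) (nat_lit 0) (p (nat_lit 0x585048402) (nat_lit 0) (p (nat_lit 0x160014) (nat_lit 0) (p (nat_lit 0x16000c) (nat_lit 0) (p (nat_lit 0x60592) (nat_lit 0) (p (nat_lit 0x48512)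 (nat_lit 0) (p (nat_lit 0x50392) (nat_lit 0) (p (nat_lit 0x38312) (nat_lit 0) (p (nat_lit 0x40212) (nat_lit 0) (p (nat_lit 0x28192) (nat_lit 0) (p (nat_lit 0x30092) (nat_lit 0) (p (nat_lit 0x18012) (nat_lit 0) pn))))))))))))))))))))) :=
  Cl.node (nat_lit 0x109) (nat_lit 2) (by decide +kernel) (ClAll.succ (ClAll.succ ClAll.zero s35) n44)

def n67 : Cl (O (nat_lit 1)) (R (nat_lit 135377))
    (p (nat_lit 0x101) (nat_lit 1) (p (nat_lit 0x119) (nat_lit 0) (p (nat_lit 0xd1) (nat_lit 0) (p (nat_lit 0x81) (nat_lit 0) (p (nat_lit 0x41) (nat_lit 1) (p (nat_lit 0x9080787089a) (nat_lit 0) (p (nat_lit 0x8878706861a) (nat_lit 0) (p (nat_lit 0x800080686078a) (nat_lit 0) (p (nat_lit 0x800078605850a) (nat_lit 0) (p (nat_lit 0x605850682) (nat_lit 0) (p (nat_lit 0x585048402) (nat_lit 0) (p (nat_lit 0x160014) (nat_lit 0) (p (nat_lit 0x16000c) (nat_lit 0) (p (nat_lit 0x60592) (nat_lit 0) (p (nat_lit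 0x48512) (nat_lit 0) (p (nat_lit 0x50392) (nat_lit 0) (p (nat_lit 0x38312) (nat_lit 0) (p (nat_lit 0x40212) (nat_lit 0) (p (nat_lit 0x28192) (nat_lit 0) (p (nat_lit 0x30092) (nat_lit 0) (p (nat_lit 0x18012) (nat_lit 0) pn))))))))))))))))))))) :=
  Cl.node (nat_lit 0xc1) (nat_lit 2) (by decide +kernel) (ClAll.succ (ClAll.succ ClAll.zero n45) n46)

def n68 : Cl (O (nat_lit 1)) (R (nat_lit 135377))
    (p (nat_lit 0xc1) (nat_lit 0) (p (nat_lit 0x119) (nat_lit 1) (p (nat_lit 0xd1) (nat_lit 0) (p (nat_lit 0x81) (nat_lit 0) (p (nat_lit 0x41) (nat_lit 1) (p (nat_lit 0x9080787089a) (nat_lit 0) (p (nat_lit 0x8878706861a) (nat_lit 0) (p (nat_lit 0x800080686078a) (nat_lit 0) (p (nat_lit 0x800078605850a) (nat_lit 0) (p (nat_lit 0x605850682) (nat_lit 0) (p (nat_lit 0x585048402) (nat_lit 0) (p (nat_lit 0x160014) (nat_lit 0) (p (nat_lit 0x16000c) (nat_lit 0) (p (nat_lit 0x60592) (nat_lit 0)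 (p (nat_lit 0x48512) (nat_lit 0) (p (nat_lit 0x50392) (nat_lit 0) (p (nat_lit 0x38312) (nat_lit 0) (p (nat_lit 0x40212) (nat_lit 0) (p (nat_lit 0x28192) (nat_lit 0) (p (nat_lit 0x30092) (nat_lit 0) (p (nat_lit 0x18012) (nat_lit 0) pn))))))))))))))))))))) :=
  Cl.node (nat_lit 0xc9) (nat_lit 2) (by decide +kernel) (ClAll.succ (ClAll.succ ClAll.zero s52) n47)

def n69 : Cl (O (nat_lit 1)) (R (nat_lit 135377))
    (p (nat_lit 0xc1) (nat_lit 1) (p (nat_lit 0x119) (nat_lit 1) (p (nat_lit 0xd1) (nat_lit 0) (p (nat_lit 0x81) (nat_lit 0) (p (nat_lit 0x41) (nat_lit 1) (p (nat_lit 0x9080787089a) (nat_lit 0) (p (nat_lit 0x8878706861a) (nat_lit 0) (p (nat_lit 0x800080686078a) (nat_lit 0) (p (nat_lit 0x800078605850a) (nat_lit 0) (p (nat_lit 0x605850682) (nat_lit 0) (p (nat_lit 0x585048402) (nat_lit 0) (p (nat_lit 0x160014) (nat_lit 0) (p (nat_lit 0x16000c) (nat_lit 0) (p (nat_lit 0x60592)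 (nat_lit 0) (p (nat_lit 0x48512) (nat_lit 0) (p (nat_lit 0x50392) (nat_lit 0) (p (nat_lit 0x38312) (nat_lit 0) (p (nat_lit 0x40212) (nat_lit 0) (p (nat_lit 0x28192) (nat_lit 0) (p (nat_lit 0x30092) (nat_lit 0) (p (nat_lit 0x18012) (nat_lit 0) pn))))))))))))))))))))) :=
  Cl.node (nat_lit 0x101) (nat_lit 2) (by decide +kernel) (ClAll.succ (ClAll.succ ClAll.zero n48) n49)

def n70 : Cl (O (nat_lit 1)) (R (nat_lit 135377))
    (p (nat_lit 0x101) (nat_lit 0) (p (nat_lit 0x111) (nat_lit 0) (p (nat_lit 0xd1) (nat_lit 1) (p (nat_lit 0x81) (nat_lit 0) (p (nat_lit 0x41) (nat_lit 1) (p (nat_lit 0x9080787089a) (nat_lit 0) (p (nat_lit 0x8878706861a) (nat_lit 0) (p (nat_lit 0x800080686078a) (nat_lit 0) (p (nat_lit 0x800078605850a) (nat_lit 0) (p (nat_lit 0x605850682) (nat_lit 0) (p (nat_lit 0x585048402) (nat_lit 0) (p (nat_lit 0x160014) (nat_lit 0) (p (nat_lit 0x16000c) (nat_lit 0) (p (nat_lit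 0x60592) (nat_lit 0) (p (nat_lit 0x48512) (nat_lit 0) (p (nat_lit 0x50392) (nat_lit 0) (p (nat_lit 0x38312) (nat_lit 0) (p (nat_lit 0x40212) (nat_lit 0) (p (nat_lit 0x28192) (nat_lit 0) (p (nat_lit 0x30092) (nat_lit 0) (p (nat_lit 0x18012) (nat_lit 0) pn))))))))))))))))))))) :=
  Cl.node (nat_lit 0x109) (nat_lit 2) (by decide +kernel) (ClAll.succ (ClAll.succ ClAll.zero s72) n50)

def n71 : Cl (O (nat_lit 1)) (R (nat_lit 135377))
    (p (nat_lit 0x101) (nat_lit 1) (p (nat_lit 0x111) (nat_lit 0) (p (nat_lit 0xd1) (nat_lit 1) (p (nat_lit 0x81) (nat_lit 0) (p (nat_lit 0x41) (nat_lit 1) (p (nat_lit 0x9080787089a) (nat_lit 0) (p (nat_lit 0x8878706861a) (nat_lit 0) (p (nat_lit 0x800080686078a) (nat_lit 0) (p (nat_lit 0x800078605850a) (nat_lit 0) (p (nat_lit 0x605850682) (nat_lit 0) (p (nat_lit 0x585048402) (nat_lit 0) (p (nat_lit 0x160014) (nat_lit 0) (p (nat_lit 0x16000c) (nat_lit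 0) (p (nat_lit 0x60592) (nat_lit 0) (p (nat_lit 0x48512) (nat_lit 0) (p (nat_lit 0x50392) (nat_lit 0) (p (nat_lit 0x38312) (nat_lit 0) (p (nat_lit 0x40212) (nat_lit 0) (p (nat_lit 0x28192) (nat_lit 0) (p (nat_lit 0x30092) (nat_lit 0) (p (nat_lit 0x18012) (nat_lit 0) pn))))))))))))))))))))) :=
  Cl.node (nat_lit 0x89) (nat_lit 2) (by decide +kernel) (ClAll.succ (ClAll.succ ClAll.zero s77) n51)

def n72 : Cl (O (nat_lit 1)) (R (nat_lit 135377))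
    (p (nat_lit 0x89) (nat_lit 1) (p (nat_lit 0x111) (nat_lit 1) (p (nat_lit 0xd1) (nat_lit 1) (p (nat_lit 0x81) (nat_lit 0) (p (nat_lit 0x41) (nat_lit 1) (p (nat_lit 0x9080787089a) (nat_lit 0) (p (nat_lit 0x8878706861a) (nat_lit 0) (p (nat_lit 0x800080686078a) (nat_lit 0) (p (nat_lit 0x800078605850a) (nat_lit 0) (p (nat_lit 0x605850682) (nat_lit 0) (p (nat_lit 0x585048402) (nat_lit 0) (p (nat_lit 0x160014) (nat_lit 0) (p (nat_lit 0x16000c) (nat_lit 0) (p (nat_lit 0x60592) (nat_lit 0) (p (nat_lit 0x48512) (nat_lit 0) (p (nat_lit 0x50392) (nat_lit 0) (p (nat_lit 0x38312) (nat_lit 0) (p (nat_lit 0x40212) (nat_lit 0) (p (nat_lit 0x28192) (nat_lit 0) (p (nat_lit 0x30092) (nat_lit 0) (p (nat_lit 0x18012) (nat_lit 0) pn))))))))))))))))))))) :=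
  Cl.node (nat_lit 0xc9) (nat_lit 2) (by decide +kernel) (ClAll.succ (ClAll.succ ClAll.zero s85) n52)

def n73 : Cl (O (nat_lit 1)) (R (nat_lit 135377))
    (p (nat_lit 0x101) (nat_lit 0) (p (nat_lit 0x119) (nat_lit 0) (p (nat_lit 0xc1) (nat_lit 0) (p (nat_lit 0x81) (nat_lit 1) (p (nat_lit 0x41) (nat_lit 1) (p (nat_lit 0x9080787089a) (nat_lit 0) (p (nat_lit 0x8878706861a) (nat_lit 0) (p (nat_lit 0x800080686078a) (nat_lit 0) (p (nat_lit 0x800078605850a) (nat_lit 0) (p (nat_lit 0x605850682) (nat_lit 0) (p (nat_lit 0x585048402) (nat_lit 0) (p (nat_lit 0x160014) (nat_lit 0) (p (nat_lit 0x16000c) (nat_lit 0) (p (nat_lit 0x60592) (nat_lit 0) (p (nat_lit 0x48512) (nat_lit 0) (p (nat_lit 0x50392) (nat_lit 0) (p (nat_lit 0x38312) (nat_lit 0) (p (nat_lit 0x40212) (nat_lit 0) (p (nat_lit 0x28192) (nat_lit 0) (p (nat_lit 0x30092) (nat_lit 0) (p (nat_lit 0x18012) (nat_lit 0) pn)))))))))))))))))))))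 :=
  Cl.node (nat_lit 0x109) (nat_lit 2) (by decide +kernel) (ClAll.succ (ClAll.succ ClAll.zero s88) n53)

def n74 : Cl (O (nat_lit 1)) (R (nat_lit 135377))
    (p (nat_lit 0x101) (nat_lit 1) (p (nat_lit 0x119) (nat_lit 0) (p (nat_lit 0xc1) (nat_lit 0) (p (nat_lit 0x81) (nat_lit 1) (p (nat_lit 0x41) (nat_lit 1) (p (nat_lit 0x9080787089a) (nat_lit 0) (p (nat_lit 0x8878706861a) (nat_lit 0) (p (nat_lit 0x800080686078a) (nat_lit 0) (p (nat_lit 0x800078605850a) (nat_lit 0) (p (nat_lit 0x605850682) (nat_lit 0) (p (nat_lit 0x585048402) (nat_lit 0) (p (nat_lit 0x160014) (nat_lit 0) (p (nat_lit 0x16000c) (nat_lit 0) (p (nat_lit 0x60592) (nat_lit 0) (p (nat_lit 0x48512) (nat_lit 0) (p (nat_lit 0x50392) (nat_lit 0) (p (nat_lit 0x38312) (nat_lit 0) (p (nat_lit 0x40212) (nat_lit 0) (p (nat_lit 0x28192) (nat_lit 0) (p (nat_lit 0x30092) (nat_lit 0) (p (nat_lit 0x18012) (nat_lit 0) pn)))))))))))))))))))))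 :=
  Cl.node (nat_lit 0xc9) (nat_lit 2) (by decide +kernel) (ClAll.succ (ClAll.succ ClAll.zero n54) s93)

def n75 : Cl (O (nat_lit 1)) (R (nat_lit 135377))
    (p (nat_lit 0xc9) (nat_lit 0) (p (nat_lit 0x119) (nat_lit 1) (p (nat_lit 0xc1) (nat_lit 0) (p (nat_lit 0x81) (nat_lit 1) (p (nat_lit 0x41) (nat_lit 1) (p (nat_lit 0x9080787089a) (nat_lit 0) (p (nat_lit 0x8878706861a) (nat_lit 0) (p (nat_lit 0x800080686078a) (nat_lit 0) (p (nat_lit 0x800078605850a) (nat_lit 0) (p (nat_lit 0x605850682) (nat_lit 0) (p (nat_lit 0x585048402) (nat_lit 0) (p (nat_lit 0x160014) (nat_lit 0) (p (nat_lit 0x16000c) (nat_lit 0) (p (nat_lit 0x60592) (nat_lit 0) (p (nat_lit 0x48512) (nat_lit 0) (p (nat_lit 0x50392) (nat_lit 0) (p (nat_lit 0x38312) (nat_lit 0) (p (nat_lit 0x40212) (nat_lit 0) (p (nat_lit 0x28192) (nat_lit 0) (p (nat_lit 0x30092) (nat_lit 0) (p (nat_lit 0x18012) (nat_lit 0) pn)))))))))))))))))))))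 :=
  Cl.node (nat_lit 0xd1) (nat_lit 2) (by decide +kernel) (ClAll.succ (ClAll.succ ClAll.zero s94) n55)

def n76 : Cl (O (nat_lit 1)) (R (nat_lit 135377))
    (p (nat_lit 0xc9) (nat_lit 1) (p (nat_lit 0x119) (nat_lit 1) (p (nat_lit 0xc1) (nat_lit 0) (p (nat_lit 0x81) (nat_lit 1) (p (nat_lit 0x41) (nat_lit 1) (p (nat_lit 0x9080787089a) (nat_lit 0) (p (nat_lit 0x8878706861a) (nat_lit 0) (p (nat_lit 0x800080686078a) (nat_lit 0) (p (nat_lit 0x800078605850a) (nat_lit 0) (p (nat_lit 0x605850682) (nat_lit 0) (p (nat_lit 0x585048402) (nat_lit 0) (p (nat_lit 0x160014) (nat_lit 0) (p (nat_lit 0x16000c) (nat_lit 0) (p (nat_lit 0x60592) (nat_lit 0) (p (nat_lit 0x48512) (nat_lit 0) (p (nat_lit 0x50392) (nat_lit 0) (p (nat_lit 0x38312) (nat_lit 0) (p (nat_lit 0x40212) (nat_lit 0) (p (nat_lit 0x28192) (nat_lit 0) (p (nat_lit 0x30092) (nat_lit 0) (p (nat_lit 0x18012) (nat_lit 0) pn)))))))))))))))))))))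 :=
  Cl.node (nat_lit 0x109) (nat_lit 2) (by decide +kernel) (ClAll.succ (ClAll.succ ClAll.zero n56) s101)

def n77 : Cl (O (nat_lit 1)) (R (nat_lit 135377))
    (p (nat_lit 0x119) (nat_lit 0) (p (nat_lit 0xd1) (nat_lit 0) (p (nat_lit 0x89) (nat_lit 0) (p (nat_lit 0x41) (nat_lit 0) (p (nat_lit 0x9080787089a) (nat_lit 0) (p (nat_lit 0x8878706861a) (nat_lit 0) (p (nat_lit 0x800080686078a) (nat_lit 0) (p (nat_lit 0x800078605850a) (nat_lit 0) (p (nat_lit 0x605850682) (nat_lit 0) (p (nat_lit 0x585048402) (nat_lit 0) (p (nat_lit 0x160014) (nat_lit 0) (p (nat_lit 0x16000c) (nat_lit 0) (p (nat_lit 0x60592) (nat_lit 0) (p (nat_lit 0x48512) (nat_lit 0) (p (nat_lit 0x50392) (nat_lit 0) (p (nat_lit 0x38312) (nat_lit 0) (p (nat_lit 0x40212) (nat_lit 0) (p (nat_lit 0x28192) (nat_lit 0) (p (nat_lit 0x30092) (nat_lit 0) (p (nat_lit 0x18012) (nat_lit 0) pn)))))))))))))))))))) :=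
  Cl.node (nat_lit 0x101) (nat_lit 2) (by decide +kernel) (ClAll.succ (ClAll.succ ClAll.zero n57) n58)

def n78 : Cl (O (nat_lit 1)) (R (nat_lit 135377))
    (p (nat_lit 0x119) (nat_lit 1) (p (nat_lit 0xd1) (nat_lit 0) (p (nat_lit 0x89) (nat_lit 0) (p (nat_lit 0x41) (nat_lit 0) (p (nat_lit 0x9080787089a) (nat_lit 0) (p (nat_lit 0x8878706861a) (nat_lit 0) (p (nat_lit 0x800080686078a) (nat_lit 0) (p (nat_lit 0x800078605850a) (nat_lit 0) (p (nat_lit 0x605850682) (nat_lit 0) (p (nat_lit 0x585048402) (nat_lit 0) (p (nat_lit 0x160014) (nat_lit 0) (p (nat_lit 0x16000c) (nat_lit 0) (p (nat_lit 0x60592) (nat_lit 0) (p (nat_lit 0x48512) (nat_lit 0) (p (nat_lit 0x50392) (nat_lit 0) (p (nat_lit 0x38312) (nat_lit 0) (p (nat_lit 0x40212) (nat_lit 0) (p (nat_lit 0x28192) (nat_lit 0) (p (nat_lit 0x30092) (nat_lit 0) (p (nat_lit 0x18012) (nat_lit 0) pn)))))))))))))))))))) :=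
  Cl.node (nat_lit 0xc1) (nat_lit 2) (by decide +kernel) (ClAll.succ (ClAll.succ ClAll.zero n59) n60)

def n79 : Cl (O (nat_lit 1)) (R (nat_lit 135377))
    (p (nat_lit 0x111) (nat_lit 0) (p (nat_lit 0xd1) (nat_lit 1) (p (nat_lit 0x89) (nat_lit 0) (p (nat_lit 0x41) (nat_lit 0) (p (nat_lit 0x9080787089a) (nat_lit 0) (p (nat_lit 0x8878706861a) (nat_lit 0) (p (nat_lit 0x800080686078a) (nat_lit 0) (p (nat_lit 0x800078605850a) (nat_lit 0) (p (nat_lit 0x605850682) (nat_lit 0) (p (nat_lit 0x585048402) (nat_lit 0) (p (nat_lit 0x160014) (nat_lit 0) (p (nat_lit 0x16000c) (nat_lit 0) (p (nat_lit 0x60592) (nat_lit 0) (p (nat_lit 0x48512) (nat_lit 0) (p (nat_lit 0x50392) (nat_lit 0) (p (nat_lit 0x38312) (nat_lit 0) (p (nat_lit 0x40212) (nat_lit 0) (p (nat_lit 0x28192) (nat_lit 0) (p (nat_lit 0x30092) (nat_lit 0) (p (nat_lit 0x18012) (nat_lit 0) pn)))))))))))))))))))) :=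
  Cl.node (nat_lit 0x101) (nat_lit 2) (by decide +kernel) (ClAll.succ (ClAll.succ ClAll.zero n61) n62)

def n80 : Cl (O (nat_lit 1)) (R (nat_lit 135377))
    (p (nat_lit 0x111) (nat_lit 1) (p (nat_lit 0xd1) (nat_lit 1) (p (nat_lit 0x89) (nat_lit 0) (p (nat_lit 0x41) (nat_lit 0) (p (nat_lit 0x9080787089a) (nat_lit 0) (p (nat_lit 0x8878706861a) (nat_lit 0) (p (nat_lit 0x800080686078a) (nat_lit 0) (p (nat_lit 0x800078605850a) (nat_lit 0) (p (nat_lit 0x605850682) (nat_lit 0) (p (nat_lit 0x585048402) (nat_lit 0) (p (nat_lit 0x160014) (nat_lit 0) (p (nat_lit 0x16000c) (nat_lit 0) (p (nat_lit 0x60592) (nat_lit 0) (p (nat_lit 0x48512) (nat_lit 0) (p (nat_lit 0x50392) (nat_lit 0) (p (nat_lit 0x38312) (nat_lit 0) (p (nat_lit 0x40212) (nat_lit 0) (p (nat_lit 0x28192) (nat_lit 0) (p (nat_lit 0x30092) (nat_lit 0) (p (nat_lit 0x18012) (nat_lit 0) pn)))))))))))))))))))) :=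
  Cl.node (nat_lit 0x81) (nat_lit 2) (by decide +kernel) (ClAll.succ (ClAll.succ ClAll.zero s25) n63)

def n81 : Cl (O (nat_lit 1)) (R (nat_lit 135377))
    (p (nat_lit 0x119) (nat_lit 0) (p (nat_lit 0xc9) (nat_lit 0) (p (nat_lit 0x89) (nat_lit 1) (p (nat_lit 0x41) (nat_lit 0) (p (nat_lit 0x9080787089a) (nat_lit 0) (p (nat_lit 0x8878706861a) (nat_lit 0) (p (nat_lit 0x800080686078a) (nat_lit 0) (p (nat_lit 0x800078605850a) (nat_lit 0) (p (nat_lit 0x605850682) (nat_lit 0) (p (nat_lit 0x585048402) (nat_lit 0) (p (nat_lit 0x160014) (nat_lit 0) (p (nat_lit 0x16000c) (nat_lit 0) (p (nat_lit 0x60592) (nat_lit 0) (p (nat_lit 0x48512) (nat_lit 0) (p (nat_lit 0x50392) (nat_lit 0) (p (nat_lit 0x38312) (nat_lit 0) (p (nat_lit 0x40212) (nat_lit 0) (p (nat_lit 0x28192) (nat_lit 0) (p (nat_lit 0x30092) (nat_lit 0) (p (nat_lit 0x18012) (nat_lit 0) pn)))))))))))))))))))) :=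
  Cl.node (nat_lit 0x101) (nat_lit 2) (by decide +kernel) (ClAll.succ (ClAll.succ ClAll.zero n64) s30)

def n82 : Cl (O (nat_lit 1)) (R (nat_lit 135377))
    (p (nat_lit 0x119) (nat_lit 1) (p (nat_lit 0xc9) (nat_lit 0) (p (nat_lit 0x89) (nat_lit 1) (p (nat_lit 0x41) (nat_lit 0) (p (nat_lit 0x9080787089a) (nat_lit 0) (p (nat_lit 0x8878706861a) (nat_lit 0) (p (nat_lit 0x800080686078a) (nat_lit 0) (p (nat_lit 0x800078605850a) (nat_lit 0) (p (nat_lit 0x605850682) (nat_lit 0) (p (nat_lit 0x585048402) (nat_lit 0) (p (nat_lit 0x160014) (nat_lit 0) (p (nat_lit 0x16000c) (nat_lit 0) (p (nat_lit 0x60592) (nat_lit 0) (p (nat_lit 0x48512) (nat_lit 0) (p (nat_lit 0x50392) (nat_lit 0) (p (nat_lit 0x38312) (nat_lit 0) (p (nat_lit 0x40212) (nat_lit 0) (p (nat_lit 0x28192) (nat_lit 0) (p (nat_lit 0x30092) (nat_lit 0) (p (nat_lit 0x18012) (nat_lit 0) pn)))))))))))))))))))) :=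
  Cl.node (nat_lit 0xc1) (nat_lit 2) (by decide +kernel) (ClAll.succ (ClAll.succ ClAll.zero s31) n65)

def n83 : Cl (O (nat_lit 1)) (R (nat_lit 135377))
    (p (nat_lit 0x119) (nat_lit 0) (p (nat_lit 0xd1) (nat_lit 0) (p (nat_lit 0x81) (nat_lit 0) (p (nat_lit 0x41) (nat_lit 1) (p (nat_lit 0x9080787089a) (nat_lit 0) (p (nat_lit 0x8878706861a) (nat_lit 0) (p (nat_lit 0x800080686078a) (nat_lit 0) (p (nat_lit 0x800078605850a) (nat_lit 0) (p (nat_lit 0x605850682) (nat_lit 0) (p (nat_lit 0x585048402) (nat_lit 0) (p (nat_lit 0x160014) (nat_lit 0) (p (nat_lit 0x16000c) (nat_lit 0) (p (nat_lit 0x60592) (nat_lit 0) (p (nat_lit 0x48512) (nat_lit 0) (p (nat_lit 0x50392) (nat_lit 0) (p (nat_lit 0x38312) (nat_lit 0) (p (nat_lit 0x40212) (nat_lit 0) (p (nat_lit 0x28192) (nat_lit 0) (p (nat_lit 0x30092) (nat_lit 0) (p (nat_lit 0x18012) (nat_lit 0) pn)))))))))))))))))))) :=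
  Cl.node (nat_lit 0x101) (nat_lit 2) (by decide +kernel) (ClAll.succ (ClAll.succ ClAll.zero n66) n67)

def n84 : Cl (O (nat_lit 1)) (R (nat_lit 135377))
    (p (nat_lit 0x119) (nat_lit 1) (p (nat_lit 0xd1) (nat_lit 0) (p (nat_lit 0x81) (nat_lit 0) (p (nat_lit 0x41) (nat_lit 1) (p (nat_lit 0x9080787089a) (nat_lit 0) (p (nat_lit 0x8878706861a) (nat_lit 0) (p (nat_lit 0x800080686078a) (nat_lit 0) (p (nat_lit 0x800078605850a) (nat_lit 0) (p (nat_lit 0x605850682) (nat_lit 0) (p (nat_lit 0x585048402) (nat_lit 0) (p (nat_lit 0x160014) (nat_lit 0) (p (nat_lit 0x16000c) (nat_lit 0) (p (nat_lit 0x60592) (nat_lit 0) (p (nat_lit 0x48512) (nat_lit 0) (p (nat_lit 0x50392) (nat_lit 0) (p (nat_lit 0x38312) (nat_lit 0) (p (nat_lit 0x40212) (nat_lit 0) (p (nat_lit 0x28192) (nat_lit 0) (p (nat_lit 0x30092) (nat_lit 0) (p (nat_lit 0x18012) (nat_lit 0) pn)))))))))))))))))))) :=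
  Cl.node (nat_lit 0xc1) (nat_lit 2) (by decide +kernel) (ClAll.succ (ClAll.succ ClAll.zero n68) n69)

def n85 : Cl (O (nat_lit 1)) (R (nat_lit 135377))
    (p (nat_lit 0x111) (nat_lit 0) (p (nat_lit 0xd1) (nat_lit 1) (p (nat_lit 0x81) (nat_lit 0) (p (nat_lit 0x41) (nat_lit 1) (p (nat_lit 0x9080787089a) (nat_lit 0) (p (nat_lit 0x8878706861a) (nat_lit 0) (p (nat_lit 0x800080686078a) (nat_lit 0) (p (nat_lit 0x800078605850a) (nat_lit 0) (p (nat_lit 0x605850682) (nat_lit 0) (p (nat_lit 0x585048402) (nat_lit 0) (p (nat_lit 0x160014) (nat_lit 0) (p (nat_lit 0x16000c) (nat_lit 0) (p (nat_lit 0x60592) (nat_lit 0) (p (nat_lit 0x48512) (nat_lit 0) (p (nat_lit 0x50392) (nat_lit 0) (p (nat_lit 0x38312) (nat_lit 0) (p (nat_lit 0x40212) (nat_lit 0) (p (nat_lit 0x28192) (nat_lit 0) (p (nat_lit 0x30092) (nat_lit 0) (p (nat_lit 0x18012) (nat_lit 0) pn)))))))))))))))))))) :=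
  Cl.node (nat_lit 0x101) (nat_lit 2) (by decide +kernel) (ClAll.succ (ClAll.succ ClAll.zero n70) n71)

def n86 : Cl (O (nat_lit 1)) (R (nat_lit 135377))
    (p (nat_lit 0x111) (nat_lit 1) (p (nat_lit 0xd1) (nat_lit 1) (p (nat_lit 0x81) (nat_lit 0) (p (nat_lit 0x41) (nat_lit 1) (p (nat_lit 0x9080787089a) (nat_lit 0) (p (nat_lit 0x8878706861a) (nat_lit 0) (p (nat_lit 0x800080686078a) (nat_lit 0) (p (nat_lit 0x800078605850a) (nat_lit 0) (p (nat_lit 0x605850682) (nat_lit 0) (p (nat_lit 0x585048402) (nat_lit 0) (p (nat_lit 0x160014) (nat_lit 0) (p (nat_lit 0x16000c) (nat_lit 0) (p (nat_lit 0x60592) (nat_lit 0) (p (nat_lit 0x48512) (nat_lit 0) (p (nat_lit 0x50392) (nat_lit 0) (p (nat_lit 0x38312) (nat_lit 0) (p (nat_lit 0x40212) (nat_lit 0) (p (nat_lit 0x28192) (nat_lit 0) (p (nat_lit 0x30092) (nat_lit 0) (p (nat_lit 0x18012) (nat_lit 0) pn)))))))))))))))))))) :=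
  Cl.node (nat_lit 0x89) (nat_lit 2) (by decide +kernel) (ClAll.succ (ClAll.succ ClAll.zero s84) n72)

def n87 : Cl (O (nat_lit 1)) (R (nat_lit 135377))
    (p (nat_lit 0x119) (nat_lit 0) (p (nat_lit 0xc1) (nat_lit 0) (p (nat_lit 0x81) (nat_lit 1) (p (nat_lit 0x41) (nat_lit 1) (p (nat_lit 0x9080787089a) (nat_lit 0) (p (nat_lit 0x8878706861a) (nat_lit 0) (p (nat_lit 0x800080686078a) (nat_lit 0) (p (nat_lit 0x800078605850a) (nat_lit 0) (p (nat_lit 0x605850682) (nat_lit 0) (p (nat_lit 0x585048402) (nat_lit 0) (p (nat_lit 0x160014) (nat_lit 0) (p (nat_lit 0x16000c) (nat_lit 0) (p (nat_lit 0x60592) (nat_lit 0) (p (nat_lit 0x48512) (nat_lit 0) (p (nat_lit 0x50392) (nat_lit 0) (p (nat_lit 0x38312) (nat_lit 0) (p (nat_lit 0x40212) (nat_lit 0) (p (nat_lit 0x28192) (nat_lit 0) (p (nat_lit 0x30092) (nat_lit 0) (p (nat_lit 0x18012) (nat_lit 0) pn)))))))))))))))))))) :=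
  Cl.node (nat_lit 0x101) (nat_lit 2) (by decide +kernel) (ClAll.succ (ClAll.succ ClAll.zero n73) n74)

def n88 : Cl (O (nat_lit 1)) (R (nat_lit 135377))
    (p (nat_lit 0x119) (nat_lit 1) (p (nat_lit 0xc1) (nat_lit 0) (p (nat_lit 0x81) (nat_lit 1) (p (nat_lit 0x41) (nat_lit 1) (p (nat_lit 0x9080787089a) (nat_lit 0) (p (nat_lit 0x8878706861a) (nat_lit 0) (p (nat_lit 0x800080686078a) (nat_lit 0) (p (nat_lit 0x800078605850a) (nat_lit 0) (p (nat_lit 0x605850682) (nat_lit 0) (p (nat_lit 0x585048402) (nat_lit 0) (p (nat_lit 0x160014) (nat_lit 0) (p (nat_lit 0x16000c) (nat_lit 0) (p (nat_lit 0x60592) (nat_lit 0) (p (nat_lit 0x48512) (nat_lit 0) (p (nat_lit 0x50392) (nat_lit 0) (p (nat_lit 0x38312) (nat_lit 0) (p (nat_lit 0x40212) (nat_lit 0) (p (nat_lit 0x28192) (nat_lit 0) (p (nat_lit 0x30092) (nat_lit 0) (p (nat_lit 0x18012) (nat_lit 0) pn)))))))))))))))))))) :=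
  Cl.node (nat_lit 0xc9) (nat_lit 2) (by decide +kernel) (ClAll.succ (ClAll.succ ClAll.zero n75) n76)

def n89 : Cl (O (nat_lit 1)) (R (nat_lit 135377))
    (p (nat_lit 0xd1) (nat_lit 0) (p (nat_lit 0x89) (nat_lit 0) (p (nat_lit 0x41) (nat_lit 0) (p (nat_lit 0x9080787089a) (nat_lit 0) (p (nat_lit 0x8878706861a) (nat_lit 0) (p (nat_lit 0x800080686078a) (nat_lit 0) (p (nat_lit 0x800078605850a) (nat_lit 0) (p (nat_lit 0x605850682) (nat_lit 0) (p (nat_lit 0x585048402) (nat_lit 0) (p (nat_lit 0x160014) (nat_lit 0) (p (nat_lit 0x16000c) (nat_lit 0) (p (nat_lit 0x60592) (nat_lit 0) (p (nat_lit 0x48512) (nat_lit 0) (p (nat_lit 0x50392) (nat_lit 0) (p (nat_lit 0x38312) (nat_lit 0) (p (nat_lit 0x40212) (nat_lit 0) (p (nat_lit 0x28192) (nat_lit 0) (p (nat_lit 0x30092) (nat_lit 0) (p (nat_lit 0x18012) (nat_lit 0) pn))))))))))))))))))) :=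
  Cl.node (nat_lit 0x119) (nat_lit 2) (by decide +kernel) (ClAll.succ (ClAll.succ ClAll.zero n77) n78)

def n90 : Cl (O (nat_lit 1)) (R (nat_lit 135377))
    (p (nat_lit 0xd1) (nat_lit 1) (p (nat_lit 0x89) (nat_lit 0) (p (nat_lit 0x41) (nat_lit 0) (p (nat_lit 0x9080787089a) (nat_lit 0) (p (nat_lit 0x8878706861a) (nat_lit 0) (p (nat_lit 0x800080686078a) (nat_lit 0) (p (nat_lit 0x800078605850a) (nat_lit 0) (p (nat_lit 0x605850682) (nat_lit 0) (p (nat_lit 0x585048402) (nat_lit 0) (p (nat_lit 0x160014) (nat_lit 0) (p (nat_lit 0x16000c) (nat_lit 0) (p (nat_lit 0x60592) (nat_lit 0) (p (nat_lit 0x48512) (nat_lit 0) (p (nat_lit 0x50392) (nat_lit 0) (p (nat_lit 0x38312) (nat_lit 0) (p (nat_lit 0x40212) (nat_lit 0) (p (nat_lit 0x28192) (nat_lit 0) (p (nat_lit 0x30092) (nat_lit 0) (p (nat_lit 0x18012) (nat_lit 0) pn))))))))))))))))))) :=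
  Cl.node (nat_lit 0x111) (nat_lit 2) (by decide +kernel) (ClAll.succ (ClAll.succ ClAll.zero n79) n80)

def n91 : Cl (O (nat_lit 1)) (R (nat_lit 135377))
    (p (nat_lit 0xc9) (nat_lit 0) (p (nat_lit 0x89) (nat_lit 1) (p (nat_lit 0x41) (nat_lit 0) (p (nat_lit 0x9080787089a) (nat_lit 0) (p (nat_lit 0x8878706861a) (nat_lit 0) (p (nat_lit 0x800080686078a) (nat_lit 0) (p (nat_lit 0x800078605850a) (nat_lit 0) (p (nat_lit 0x605850682) (nat_lit 0) (p (nat_lit 0x585048402) (nat_lit 0) (p (nat_lit 0x160014) (nat_lit 0) (p (nat_lit 0x16000c) (nat_lit 0) (p (nat_lit 0x60592) (nat_lit 0) (p (nat_lit 0x48512) (nat_lit 0) (p (nat_lit 0x50392) (nat_lit 0) (p (nat_lit 0x38312) (nat_lit 0) (p (nat_lit 0x40212) (nat_lit 0) (p (nat_lit 0x28192) (nat_lit 0) (p (nat_lit 0x30092) (nat_lit 0) (p (nat_lit 0x18012) (nat_lit 0) pn))))))))))))))))))) :=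
  Cl.node (nat_lit 0x119) (nat_lit 2) (by decide +kernel) (ClAll.succ (ClAll.succ ClAll.zero n81) n82)

def n92 : Cl (O (nat_lit 1)) (R (nat_lit 135377))
    (p (nat_lit 0xd1) (nat_lit 0) (p (nat_lit 0x81) (nat_lit 0) (p (nat_lit 0x41) (nat_lit 1) (p (nat_lit 0x9080787089a) (nat_lit 0) (p (nat_lit 0x8878706861a) (nat_lit 0) (p (nat_lit 0x800080686078a) (nat_lit 0) (p (nat_lit 0x800078605850a) (nat_lit 0) (p (nat_lit 0x605850682) (nat_lit 0) (p (nat_lit 0x585048402) (nat_lit 0) (p (nat_lit 0x160014) (nat_lit 0) (p (nat_lit 0x16000c) (nat_lit 0) (p (nat_lit 0x60592) (nat_lit 0) (p (nat_lit 0x48512) (nat_lit 0) (p (nat_lit 0x50392) (nat_lit 0) (p (nat_lit 0x38312) (nat_lit 0) (p (nat_lit 0x40212) (nat_lit 0) (p (nat_lit 0x28192) (nat_lit 0) (p (nat_lit 0x30092) (nat_lit 0) (p (nat_lit 0x18012) (nat_lit 0) pn))))))))))))))))))) :=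
  Cl.node (nat_lit 0x119) (nat_lit 2) (by decide +kernel) (ClAll.succ (ClAll.succ ClAll.zero n83) n84)

def n93 : Cl (O (nat_lit 1)) (R (nat_lit 135377))
    (p (nat_lit 0xd1) (nat_lit 1) (p (nat_lit 0x81) (nat_lit 0) (p (nat_lit 0x41) (nat_lit 1) (p (nat_lit 0x9080787089a) (nat_lit 0) (p (nat_lit 0x8878706861a) (nat_lit 0) (p (nat_lit 0x800080686078a) (nat_lit 0) (p (nat_lit 0x800078605850a) (nat_lit 0) (p (nat_lit 0x605850682) (nat_lit 0) (p (nat_lit 0x585048402) (nat_lit 0) (p (nat_lit 0x160014) (nat_lit 0) (p (nat_lit 0x16000c) (nat_lit 0) (p (nat_lit 0x60592) (nat_lit 0) (p (nat_lit 0x48512) (nat_lit 0) (p (nat_lit 0x50392) (nat_lit 0) (p (nat_lit 0x38312) (nat_lit 0) (p (nat_lit 0x40212) (nat_lit 0) (p (nat_lit 0x28192) (nat_lit 0) (p (nat_lit 0x30092) (nat_lit 0) (p (nat_lit 0x18012) (nat_lit 0) pn))))))))))))))))))) :=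
  Cl.node (nat_lit 0x111) (nat_lit 2) (by decide +kernel) (ClAll.succ (ClAll.succ ClAll.zero n85) n86)

def n94 : Cl (O (nat_lit 1)) (R (nat_lit 135377))
    (p (nat_lit 0xc1) (nat_lit 0) (p (nat_lit 0x81) (nat_lit 1) (p (nat_lit 0x41) (nat_lit 1) (p (nat_lit 0x9080787089a) (nat_lit 0) (p (nat_lit 0x8878706861a) (nat_lit 0) (p (nat_lit 0x800080686078a) (nat_lit 0) (p (nat_lit 0x800078605850a) (nat_lit 0) (p (nat_lit 0x605850682) (nat_lit 0) (p (nat_lit 0x585048402) (nat_lit 0) (p (nat_lit 0x160014) (nat_lit 0) (p (nat_lit 0x16000c) (nat_lit 0) (p (nat_lit 0x60592) (nat_lit 0) (p (nat_lit 0x48512) (nat_lit 0) (p (nat_lit 0x50392) (nat_lit 0) (p (nat_lit 0x38312) (nat_lit 0) (p (nat_lit 0x40212) (nat_lit 0) (p (nat_lit 0x28192) (nat_lit 0) (p (nat_lit 0x30092) (nat_lit 0) (p (nat_lit 0x18012) (nat_lit 0) pn))))))))))))))))))) :=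
  Cl.node (nat_lit 0x119) (nat_lit 2) (by decide +kernel) (ClAll.succ (ClAll.succ ClAll.zero n87) n88)

def n95 : Cl (O (nat_lit 1)) (R (nat_lit 135377))
    (p (nat_lit 0x89) (nat_lit 0) (p (nat_lit 0x41) (nat_lit 0) (p (nat_lit 0x9080787089a) (nat_lit 0) (p (nat_lit 0x8878706861a) (nat_lit 0) (p (nat_lit 0x800080686078a) (nat_lit 0) (p (nat_lit 0x800078605850a) (nat_lit 0) (p (nat_lit 0x605850682) (nat_lit 0) (p (nat_lit 0x585048402) (nat_lit 0) (p (nat_lit 0x160014) (nat_lit 0) (p (nat_lit 0x16000c) (nat_lit 0) (p (nat_lit 0x60592) (nat_lit 0) (p (nat_lit 0x48512) (nat_lit 0) (p (nat_lit 0x50392) (nat_lit 0) (p (nat_lit 0x38312) (nat_lit 0) (p (nat_lit 0x40212) (nat_lit 0) (p (nat_lit 0x28192) (nat_lit 0) (p (nat_lit 0x30092) (nat_lit 0) (p (nat_lit 0x18012) (nat_lit 0) pn)))))))))))))))))) :=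
  Cl.node (nat_lit 0xd1) (nat_lit 2) (by decide +kernel) (ClAll.succ (ClAll.succ ClAll.zero n89) n90)

def n96 : Cl (O (nat_lit 1)) (R (nat_lit 135377))
    (p (nat_lit 0x89) (nat_lit 1) (p (nat_lit 0x41) (nat_lit 0) (p (nat_lit 0x9080787089a) (nat_lit 0) (p (nat_lit 0x8878706861a) (nat_lit 0) (p (nat_lit 0x800080686078a) (nat_lit 0) (p (nat_lit 0x800078605850a) (nat_lit 0) (p (nat_lit 0x605850682) (nat_lit 0) (p (nat_lit 0x585048402) (nat_lit 0) (p (nat_lit 0x160014) (nat_lit 0) (p (nat_lit 0x16000c) (nat_lit 0) (p (nat_lit 0x60592) (nat_lit 0) (p (nat_lit 0x48512) (nat_lit 0) (p (nat_lit 0x50392) (nat_lit 0) (p (nat_lit 0x38312) (nat_lit 0) (p (nat_lit 0x40212) (nat_lit 0) (p (nat_lit 0x28192) (nat_lit 0) (p (nat_lit 0x30092) (nat_lit 0) (p (nat_lit 0x18012) (nat_lit 0) pn)))))))))))))))))) :=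
  Cl.node (nat_lit 0xc9) (nat_lit 2) (by decide +kernel) (ClAll.succ (ClAll.succ ClAll.zero n91) s34)

def n97 : Cl (O (nat_lit 1)) (R (nat_lit 135377))
    (p (nat_lit 0x81) (nat_lit 0) (p (nat_lit 0x41) (nat_lit 1) (p (nat_lit 0x9080787089a) (nat_lit 0) (p (nat_lit 0x8878706861a) (nat_lit 0) (p (nat_lit 0x800080686078a) (nat_lit 0) (p (nat_lit 0x800078605850a) (nat_lit 0) (p (nat_lit 0x605850682) (nat_lit 0) (p (nat_lit 0x585048402) (nat_lit 0) (p (nat_lit 0x160014) (nat_lit 0) (p (nat_lit 0x16000c) (nat_lit 0) (p (nat_lit 0x60592) (nat_lit 0) (p (nat_lit 0x48512) (nat_lit 0) (p (nat_lit 0x50392) (nat_lit 0) (p (nat_lit 0x38312) (nat_lit 0) (p (nat_lit 0x40212) (nat_lit 0) (p (nat_lit 0x28192) (nat_lit 0) (p (nat_lit 0x30092) (nat_lit 0) (p (nat_lit 0x18012) (nat_lit 0) pn)))))))))))))))))) :=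
  Cl.node (nat_lit 0xd1) (nat_lit 2) (by decide +kernel) (ClAll.succ (ClAll.succ ClAll.zero n92) n93)

def n98 : Cl (O (nat_lit 1)) (R (nat_lit 135377))
    (p (nat_lit 0x81) (nat_lit 1) (p (nat_lit 0x41) (nat_lit 1) (p (nat_lit 0x9080787089a) (nat_lit 0) (p (nat_lit 0x8878706861a) (nat_lit 0) (p (nat_lit 0x800080686078a) (nat_lit 0) (p (nat_lit 0x800078605850a) (nat_lit 0) (p (nat_lit 0x605850682) (nat_lit 0) (p (nat_lit 0x585048402) (nat_lit 0) (p (nat_lit 0x160014) (nat_lit 0) (p (nat_lit 0x16000c) (nat_lit 0) (p (nat_lit 0x60592) (nat_lit 0) (p (nat_lit 0x48512) (nat_lit 0) (p (nat_lit 0x50392) (nat_lit 0) (p (nat_lit 0x38312) (nat_lit 0) (p (nat_lit 0x40212) (nat_lit 0) (p (nat_lit 0x28192) (nat_lit 0) (p (nat_lit 0x30092) (nat_lit 0) (p (nat_lit 0x18012) (nat_lit 0) pn)))))))))))))))))) :=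
  Cl.node (nat_lit 0xc1) (nat_lit 2) (by decide +kernel) (ClAll.succ (ClAll.succ ClAll.zero n94) s102)

def n99 : Cl (O (nat_lit 1)) (R (nat_lit 135377))
    (p (nat_lit 0x41) (nat_lit 0) (p (nat_lit 0x9080787089a) (nat_lit 0) (p (nat_lit 0x8878706861a) (nat_lit 0) (p (nat_lit 0x800080686078a) (nat_lit 0) (p (nat_lit 0x800078605850a) (nat_lit 0) (p (nat_lit 0x605850682) (nat_lit 0) (p (nat_lit 0x585048402) (nat_lit 0) (p (nat_lit 0x160014) (nat_lit 0) (p (nat_lit 0x16000c) (nat_lit 0) (p (nat_lit 0x60592) (nat_lit 0) (p (nat_lit 0x48512) (nat_lit 0) (p (nat_lit 0x50392) (nat_lit 0) (p (nat_lit 0x38312) (nat_lit 0) (p (nat_lit 0x40212) (nat_lit 0) (p (nat_lit 0x28192) (nat_lit 0) (p (nat_lit 0x30092) (nat_lit 0) (p (nat_lit 0x18012) (nat_lit 0) pn))))))))))))))))) :=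
  Cl.node (nat_lit 0x89) (nat_lit 2) (by decide +kernel) (ClAll.succ (ClAll.succ ClAll.zero n95) n96)

def n100 : Cl (O (nat_lit 1)) (R (nat_lit 135377))
    (p (nat_lit 0x41) (nat_lit 1) (p (nat_lit 0x9080787089a) (nat_lit 0) (p (nat_lit 0x8878706861a) (nat_lit 0) (p (nat_lit 0x800080686078a) (nat_lit 0) (p (nat_lit 0x800078605850a) (nat_lit 0) (p (nat_lit 0x605850682) (nat_lit 0) (p (nat_lit 0x585048402) (nat_lit 0) (p (nat_lit 0x160014) (nat_lit 0) (p (nat_lit 0x16000c) (nat_lit 0) (p (nat_lit 0x60592) (nat_lit 0) (p (nat_lit 0x48512) (nat_lit 0) (p (nat_lit 0x50392) (nat_lit 0) (p (nat_lit 0x38312) (nat_lit 0) (p (nat_lit 0x40212) (nat_lit 0) (p (nat_lit 0x28192) (nat_lit 0) (p (nat_lit 0x30092) (nat_lit 0) (p (nat_lit 0x18012) (nat_lit 0) pn))))))))))))))))) :=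
  Cl.node (nat_lit 0x81) (nat_lit 2) (by decide +kernel) (ClAll.succ (ClAll.succ ClAll.zero n97) n98)

def n101 : Cl (O (nat_lit 1)) (R (nat_lit 135377))
    (p (nat_lit 0x9080787089a) (nat_lit 0) (p (nat_lit 0x8878706861a) (nat_lit 0) (p (nat_lit 0x800080686078a) (nat_lit 0) (p (nat_lit 0x800078605850a) (nat_lit 0) (p (nat_lit 0x605850682) (nat_lit 0) (p (nat_lit 0x585048402) (nat_lit 0) (p (nat_lit 0x160014) (nat_lit 0) (p (nat_lit 0x16000c) (nat_lit 0) (p (nat_lit 0x60592) (nat_lit 0) (p (nat_lit 0x48512) (nat_lit 0) (p (nat_lit 0x50392) (nat_lit 0) (p (nat_lit 0x38312) (nat_lit 0) (p (nat_lit 0x40212) (nat_lit 0) (p (nat_lit 0x28192) (nat_lit 0) (p (nat_lit 0x30092) (nat_lit 0) (p (nat_lit 0x18012) (nat_lit 0) pn)))))))))))))))) :=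
  Cl.node (nat_lit 0x41) (nat_lit 2) (by decide +kernel) (ClAll.succ (ClAll.succ ClAll.zero n99) n100)

def n102 : Cl (O (nat_lit 1)) (R (nat_lit 135377))
    (p (nat_lit 0x8878706861a) (nat_lit 0) (p (nat_lit 0x800080686078a) (nat_lit 0) (p (nat_lit 0x800078605850a) (nat_lit 0) (p (nat_lit 0x605850682) (nat_lit 0) (p (nat_lit 0x585048402) (nat_lit 0) (p (nat_lit 0x160014) (nat_lit 0) (p (nat_lit 0x16000c) (nat_lit 0) (p (nat_lit 0x60592) (nat_lit 0) (p (nat_lit 0x48512) (nat_lit 0) (p (nat_lit 0x50392) (nat_lit 0) (p (nat_lit 0x38312) (nat_lit 0) (p (nat_lit 0x40212) (nat_lit 0) (p (nat_lit 0x28192) (nat_lit 0) (p (nat_lit 0x30092) (nat_lit 0) (p (nat_lit 0x18012) (nat_lit 0) pn))))))))))))))) :=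
  Cl.node (nat_lit 0x9080787089a) (nat_lit 1) (by decide +kernel) (ClAll.succ ClAll.zero n101)

def n103 : Cl (O (nat_lit 1)) (R (nat_lit 135377))
    (p (nat_lit 0x800080686078a) (nat_lit 0) (p (nat_lit 0x800078605850a) (nat_lit 0) (p (nat_lit 0x605850682) (nat_lit 0) (p (nat_lit 0x585048402) (nat_lit 0) (p (nat_lit 0x160014) (nat_lit 0) (p (nat_lit 0x16000c) (nat_lit 0) (p (nat_lit 0x60592) (nat_lit 0) (p (nat_lit 0x48512) (nat_lit 0) (p (nat_lit 0x50392) (nat_lit 0) (p (nat_lit 0x38312) (nat_lit 0) (p (nat_lit 0x40212) (nat_lit 0) (p (nat_lit 0x28192) (nat_lit 0) (p (nat_lit 0x30092) (nat_lit 0) (p (nat_lit 0x18012) (nat_lit 0) pn)))))))))))))) :=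
  Cl.node (nat_lit 0x8878706861a) (nat_lit 1) (by decide +kernel) (ClAll.succ ClAll.zero n102)

def n104 : Cl (O (nat_lit 1)) (R (nat_lit 135377))
    (p (nat_lit 0x800078605850a) (nat_lit 0) (p (nat_lit 0x605850682) (nat_lit 0) (p (nat_lit 0x585048402) (nat_lit 0) (p (nat_lit 0x160014) (nat_lit 0) (p (nat_lit 0x16000c) (nat_lit 0) (p (nat_lit 0x60592) (nat_lit 0) (p (nat_lit 0x48512) (nat_lit 0) (p (nat_lit 0x50392) (nat_lit 0) (p (nat_lit 0x38312) (nat_lit 0) (p (nat_lit 0x40212) (nat_lit 0) (p (nat_lit 0x28192) (nat_lit 0) (p (nat_lit 0x30092) (nat_lit 0) (p (nat_lit 0x18012) (nat_lit 0) pn))))))))))))) :=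
  Cl.node (nat_lit 0x800080686078a) (nat_lit 1) (by decide +kernel) (ClAll.succ ClAll.zero n103)

def n105 : Cl (O (nat_lit 1)) (R (nat_lit 135377))
    (p (nat_lit 0x605850682) (nat_lit 0) (p (nat_lit 0x585048402) (nat_lit 0) (p (nat_lit 0x160014) (nat_lit 0) (p (nat_lit 0x16000c) (nat_lit 0) (p (nat_lit 0x60592) (nat_lit 0) (p (nat_lit 0x48512) (nat_lit 0) (p (nat_lit 0x50392) (nat_lit 0) (p (nat_lit 0x38312) (nat_lit 0) (p (nat_lit 0x40212) (nat_lit 0) (p (nat_lit 0x28192) (nat_lit 0) (p (nat_lit 0x30092) (nat_lit 0) (p (nat_lit 0x18012) (nat_lit 0) pn)))))))))))) :=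
  Cl.node (nat_lit 0x800078605850a) (nat_lit 1) (by decide +kernel) (ClAll.succ ClAll.zero n104)

def n106 : Cl (O (nat_lit 1)) (R (nat_lit 135377))
    (p (nat_lit 0x585048402) (nat_lit 0) (p (nat_lit 0x160014) (nat_lit 0) (p (nat_lit 0x16000c) (nat_lit 0) (p (nat_lit 0x60592) (nat_lit 0) (p (nat_lit 0x48512) (nat_lit 0) (p (nat_lit 0x50392) (nat_lit 0) (p (nat_lit 0x38312) (nat_lit 0) (p (nat_lit 0x40212) (nat_lit 0) (p (nat_lit 0x28192) (nat_lit 0) (p (nat_lit 0x30092) (nat_lit 0) (p (nat_lit 0x18012) (nat_lit 0) pn))))))))))) :=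
  Cl.node (nat_lit 0x605850682) (nat_lit 1) (by decide +kernel) (ClAll.succ ClAll.zero n105)

def n107 : Cl (O (nat_lit 1)) (R (nat_lit 135377))
    (p (nat_lit 0x160014) (nat_lit 0) (p (nat_lit 0x16000c) (nat_lit 0) (p (nat_lit 0x60592) (nat_lit 0) (p (nat_lit 0x48512) (nat_lit 0) (p (nat_lit 0x50392) (nat_lit 0) (p (nat_lit 0x38312) (nat_lit 0) (p (nat_lit 0x40212) (nat_lit 0) (p (nat_lit 0x28192) (nat_lit 0) (p (nat_lit 0x30092) (nat_lit 0) (p (nat_lit 0x18012) (nat_lit 0) pn)))))))))) :=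
  Cl.node (nat_lit 0x585048402) (nat_lit 1) (by decide +kernel) (ClAll.succ ClAll.zero n106)

def n108 : Cl (O (nat_lit 1)) (R (nat_lit 135377))
    (p (nat_lit 0x16000c) (nat_lit 0) (p (nat_lit 0x60592) (nat_lit 0) (p (nat_lit 0x48512) (nat_lit 0) (p (nat_lit 0x50392) (nat_lit 0) (p (nat_lit 0x38312) (nat_lit 0) (p (nat_lit 0x40212) (nat_lit 0) (p (nat_lit 0x28192) (nat_lit 0) (p (nat_lit 0x30092) (nat_lit 0) (p (nat_lit 0x18012) (nat_lit 0) pn))))))))) :=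
  Cl.node (nat_lit 0x160014) (nat_lit 2) (by decide +kernel) (ClAll.succ (ClAll.succ ClAll.zero n107) s103)

def n109 : Cl (O (nat_lit 1)) (R (nat_lit 135377))
    (p (nat_lit 0x60592) (nat_lit 0) (p (nat_lit 0x48512) (nat_lit 0) (p (nat_lit 0x50392) (nat_lit 0) (p (nat_lit 0x38312) (nat_lit 0) (p (nat_lit 0x40212) (nat_lit 0) (p (nat_lit 0x28192) (nat_lit 0) (p (nat_lit 0x30092) (nat_lit 0) (p (nat_lit 0x18012) (nat_lit 0) pn)))))))) :=
  Cl.node (nat_lit 0x16000c) (nat_lit 2) (by decide +kernel) (ClAll.succ (ClAll.succ ClAll.zero n108) s104)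

def n110 : Cl (O (nat_lit 1)) (R (nat_lit 135377))
    (p (nat_lit 0x48512) (nat_lit 0) (p (nat_lit 0x50392) (nat_lit 0) (p (nat_lit 0x38312) (nat_lit 0) (p (nat_lit 0x40212) (nat_lit 0) (p (nat_lit 0x28192) (nat_lit 0) (p (nat_lit 0x30092) (nat_lit 0) (p (nat_lit 0x18012) (nat_lit 0) pn))))))) :=
  Cl.node (nat_lit 0x60592) (nat_lit 1) (by decide +kernel) (ClAll.succ ClAll.zero n109)

def n111 : Cl (O (nat_lit 1)) (R (nat_lit 135377))
    (p (nat_lit 0x50392) (nat_lit 0) (p (nat_lit 0x38312) (nat_lit 0) (p (nat_lit 0x40212) (nat_lit 0) (p (nat_lit 0x28192) (nat_lit 0) (p (nat_lit 0x30092) (nat_lit 0) (p (nat_lit 0x18012) (nat_lit 0) pn)))))) :=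
  Cl.node (nat_lit 0x48512) (nat_lit 1) (by decide +kernel) (ClAll.succ ClAll.zero n110)

def n112 : Cl (O (nat_lit 1)) (R (nat_lit 135377))
    (p (nat_lit 0x38312) (nat_lit 0) (p (nat_lit 0x40212) (nat_lit 0) (p (nat_lit 0x28192) (nat_lit 0) (p (nat_lit 0x30092) (nat_lit 0) (p (nat_lit 0x18012) (nat_lit 0) pn))))) :=
  Cl.node (nat_lit 0x50392) (nat_lit 1) (by decide +kernel) (ClAll.succ ClAll.zero n111)

def n113 : Cl (O (nat_lit 1)) (R (nat_lit 135377))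
    (p (nat_lit 0x40212) (nat_lit 0) (p (nat_lit 0x28192) (nat_lit 0) (p (nat_lit 0x30092) (nat_lit 0) (p (nat_lit 0x18012) (nat_lit 0) pn)))) :=
  Cl.node (nat_lit 0x38312) (nat_lit 1) (by decide +kernel) (ClAll.succ ClAll.zero n112)

def n114 : Cl (O (nat_lit 1)) (R (nat_lit 135377))
    (p (nat_lit 0x28192) (nat_lit 0) (p (nat_lit 0x30092) (nat_lit 0) (p (nat_lit 0x18012) (nat_lit 0) pn))) :=
  Cl.node (nat_lit 0x40212) (nat_lit 1) (by decide +kernel) (ClAll.succ ClAll.zero n113)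

def n115 : Cl (O (nat_lit 1)) (R (nat_lit 135377))
    (p (nat_lit 0x30092) (nat_lit 0) (p (nat_lit 0x18012) (nat_lit 0) pn)) :=
  Cl.node (nat_lit 0x28192) (nat_lit 1) (by decide +kernel) (ClAll.succ ClAll.zero n114)

def n116 : Cl (O (nat_lit 1)) (R (nat_lit 135377))
    (p (nat_lit 0x18012) (nat_lit 0) pn) :=
  Cl.node (nat_lit 0x30092) (nat_lit 1) (by decide +kernel) (ClAll.succ ClAll.zero n115)

def n117 : Cl (O (nat_lit 1)) (R (nat_lit 135377))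
    pn :=
  Cl.node (nat_lit 0x18012) (nat_lit 1) (by decide +kernel) (ClAll.succ ClAll.zero n116)

theorem top : Cl (O (nat_lit 1)) (R (nat_lit 135377)) pn := n117

end Pool.Agent.Gen.F5.X123C1Dm1
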